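import Pool.Agent.Work.MP_f0c219_gt.Defs

/-!
# Basic facts on CAT(0) spaces
-/

open Set Topology

namespace Pool.Agent.Work.MP_f0c219_gt

/-- A function satisfying the CAT(0) inequality along a family of paths satisfies the triangle
inequality. -/
theorem triangle_of_bicombing {X : Type*} (D : X → X → ℝ) (hD0 : ∀ x y, 0 ≤ D x y)
    (hsymm : ∀ x y, D x y = D y x) (γ : X → X → ℝ → X)
    (hC : ∀ p x y, ∀ t ∈ Icc (0 : ℝ) 1,
      D p (γ x y t) ^ 2 ≤ (1 - t) * D p x ^ 2 + t * D p y ^ 2 - t * (1 - t) * D x y ^ 2)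
    (x y p : X) : D x y ≤ D x p + D p y := by
  rw [hsymm x p]
  set a := D p x with ha
  set b := D p y with hb
  set c := D x y with hc
  have ha0 : 0 ≤ a := hD0 _ _
  have hb0 : 0 ≤ b := hD0 _ _
  by_contra hlt
  push Not at hlt
  rcases (add_nonneg ha0 hb0).eq_or_lt with h0 | hpos
  · have ha' : a = 0 := by linarith
    have hb' : b = 0 := by linarith
    have h := hC p x y (1 / 2) ⟨by norm_num, by norm_num⟩
    have h2 : 0 ≤ D p (γ x y (1 / 2)) ^ 2 := sq_nonneg _
    rw [← ha, ← hb, ← hc, ha', hb'] at h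
    have hc0 : 0 < c := by linarith
    nlinarith
  · have h := hC p x y (a / (a + b)) ⟨by positivity, by rw [div_le_one hpos]; linarith⟩
    have h2 : 0 ≤ D p (γ x y (a / (a + b))) ^ 2 := sq_nonneg _
    rw [← ha, ← hb, ← hc] at h
    have h3 : (1 - a / (a + b)) = b / (a + b) := by field_simp; ring
    rw [h3] at h
    have h4 : b / (a + b) * a ^ 2 + a / (a + b) * b ^ 2 - a / (a + b) * (b / (a + b)) * c ^ 2 =
        a * b * ((a + b) ^ 2 - c ^ 2) / (a + b) ^ 2 := by
      field_simp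
    rw [h4] at h
    have h5 : 0 ≤ a * b * ((a + b) ^ 2 - c ^ 2) := by
      have h6 : 0 ≤ a * b * ((a + b) ^ 2 - c ^ 2) / (a + b) ^ 2 := le_trans h2 h
      by_contra hneg
      push Not at hneg
      have := div_neg_of_neg_of_pos hneg (by positivity : 0 < (a + b) ^ 2)
      linarith
    have h7 : (a + b) ^ 2 < c ^ 2 := by nlinarith
    have hab : a * b = 0 := by
      by_contra hne
      have : 0 < a * b := lt_of_le_of_ne (mul_nonneg ha0 hb0) (Ne.symm hne)
      nlinarith
    -- one of `a`, `b` vanishes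
    rcases mul_eq_zero.1 hab with h8 | h8
    · -- a = 0
      have hbp : 0 < b := by linarith
      -- choose small t
      have hc0 : 0 < c := by linarith
      rw [h8, zero_add] at hlt
      set t := (1 - b ^ 2 / c ^ 2) / 2 with ht
      have hbc : b ^ 2 / c ^ 2 < 1 := by
        rw [div_lt_one (by positivity)]; nlinarith
      have hbc0 : 0 < b ^ 2 / c ^ 2 := by positivity
      have ht0 : 0 < t := by rw [ht]; linarith
      have ht1 : t ≤ 1 := by rw [ht]; linarith
      have h9 := hC p x y t ⟨ht0.le, ht1⟩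
      have h10 : 0 ≤ D p (γ x y t) ^ 2 := sq_nonneg _
      rw [← ha, ← hb, ← hc, h8] at h9
      have h11 : 0 ≤ b ^ 2 - (1 - t) * c ^ 2 := by
        by_contra hneg
        push Not at hneg
        nlinarith
      have h12 : b ^ 2 = b ^ 2 / c ^ 2 * c ^ 2 := by field_simp
      have h13 : b ^ 2 / c ^ 2 = 1 - 2 * t := by rw [ht]; ring
      rw [h13] at h12
      nlinarith [mul_pos ht0 (pow_pos hc0 2)]
    · -- b = 0
      have hap : 0 < a := by linarith
      have hc0 : 0 < c := by linarith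
      rw [h8, add_zero] at hlt
      set t := (1 - a ^ 2 / c ^ 2) / 2 with ht
      have hbc : a ^ 2 / c ^ 2 < 1 := by
        rw [div_lt_one (by positivity)]; nlinarith
      have hbc0 : 0 < a ^ 2 / c ^ 2 := by positivity
      have ht0 : 0 < t := by rw [ht]; linarith
      have ht1 : t ≤ 1 := by rw [ht]; linarith
      have h9 := hC p x y (1 - t) ⟨by linarith, by linarith⟩
      have h10 : 0 ≤ D p (γ x y (1 - t)) ^ 2 := sq_nonneg _
      rw [← ha, ← hb, ← hc, h8] at h9
      have h11 : 0 ≤ a ^ 2 - (1 - t) * c ^ 2 := by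
        by_contra hneg
        push Not at hneg
        nlinarith
      have h12 : a ^ 2 = a ^ 2 / c ^ 2 * c ^ 2 := by field_simp
      have h13 : a ^ 2 / c ^ 2 = 1 - 2 * t := by rw [ht]; ring
      rw [h13] at h12
      nlinarith [mul_pos ht0 (pow_pos hc0 2)]

namespace IsCAT0

variable {X : Type*} [MetricSpace X]

theorem inequality (h : IsCAT0 X) {x y : X} {γ : ℝ → X} (hγ : IsGeodesic γ x y) (p : X) {t : ℝ}
    (ht : t ∈ Icc (0 : ℝ) 1) :
    dist p (γ t) ^ 2 ≤ (1 - t) * dist p x ^ 2 + t * dist p y ^ 2 - t * (1 - t) * dist x y ^ 2 :=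
  h.2 x y p γ hγ t ht

/-- A point at the right distances from the endpoints lies on the geodesic. -/
theorem eq_of_dist (h : IsCAT0 X) {x y : X} {γ : ℝ → X} (hγ : IsGeodesic γ x y) {t : ℝ}
    (ht : t ∈ Icc (0 : ℝ) 1) {p : X} (h1 : dist p x ≤ t * dist x y)
    (h2 : dist p y ≤ (1 - t) * dist x y) : p = γ t := by
  have h3 := h.inequality hγ p ht
  have h4 : dist p x ^ 2 ≤ (t * dist x y) ^ 2 := by
    have := @dist_nonneg _ _ p x
    nlinarith
  have h5 : dist p y ^ 2 ≤ ((1 - t) * dist x y) ^ 2 := by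
    have := @dist_nonneg _ _ p y
    nlinarith
  have h6 : dist p (γ t) ^ 2 ≤ 0 := by
    have h7 : (1 - t) * dist p x ^ 2 ≤ (1 - t) * (t * dist x y) ^ 2 :=
      mul_le_mul_of_nonneg_left h4 (by linarith [ht.2])
    have h8 : t * dist p y ^ 2 ≤ t * ((1 - t) * dist x y) ^ 2 :=
      mul_le_mul_of_nonneg_left h5 ht.1
    nlinarith
  have h7 : dist p (γ t) = 0 := by
    have := @dist_nonneg _ _ p (γ t)
    nlinarith
  exact dist_eq_zero.1 h7

/-- Geodesics in a CAT(0) space are unique. -/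
theorem unique (h : IsCAT0 X) {x y : X} {γ γ' : ℝ → X} (hγ : IsGeodesic γ x y)
    (hγ' : IsGeodesic γ' x y) {t : ℝ} (ht : t ∈ Icc (0 : ℝ) 1) : γ t = γ' t := by
  obtain ⟨h0, h1, hd⟩ := hγ
  refine h.eq_of_dist hγ' ht ?_ ?_
  · have := hd t ht 0 ⟨le_rfl, zero_le_one⟩
    rw [h0, sub_zero, abs_of_nonneg ht.1] at this
    exact this.le
  · have := hd t ht 1 ⟨zero_le_one, le_rfl⟩
    rw [h1, abs_sub_comm, abs_of_nonneg (by linarith [ht.2])] at this
    exact this.le

end IsCAT0

/-- Criterion: if every pair of points is joined by some path satisfying the CAT(0) inequality for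
all points `p`, then the space is CAT(0) (and these paths are the geodesics). -/
theorem isCAT0_of_bicombing {X : Type*} [MetricSpace X] (γ : X → X → ℝ → X)
    (h0 : ∀ x y, γ x y 0 = x) (h1 : ∀ x y, γ x y 1 = y)
    (hC : ∀ p x y : X, ∀ t ∈ Icc (0 : ℝ) 1,
      dist p (γ x y t) ^ 2 ≤ (1 - t) * dist p x ^ 2 + t * dist p y ^ 2
        - t * (1 - t) * dist x y ^ 2) : IsCAT0 X := by
  have hle : ∀ x y : X, ∀ s ∈ Icc (0 : ℝ) 1, ∀ t ∈ Icc (0 : ℝ) 1,
      dist (γ x y s) (γ x y t) ≤ |s - t| * dist x y := by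
    intro x y s hs t ht
    have hx : dist (γ x y s) x ^ 2 ≤ (s * dist x y) ^ 2 := by
      have := hC x x y s hs
      rw [dist_self] at this
      rw [dist_comm]
      nlinarith
    have hy : dist (γ x y s) y ^ 2 ≤ ((1 - s) * dist x y) ^ 2 := by
      have := hC y x y s hs
      rw [dist_self, dist_comm y x] at this
      rw [dist_comm (γ x y s)]
      nlinarith
    have h := hC (γ x y s) x y t ht
    have h7 : (1 - t) * dist (γ x y s) x ^ 2 ≤ (1 - t) * (s * dist x y) ^ 2 :=
      mul_le_mul_of_nonneg_left hx (by linarith [ht.2])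
    have h8 : t * dist (γ x y s) y ^ 2 ≤ t * ((1 - s) * dist x y) ^ 2 :=
      mul_le_mul_of_nonneg_left hy ht.1
    have h9 : dist (γ x y s) (γ x y t) ^ 2 ≤ (|s - t| * dist x y) ^ 2 := by
      rw [mul_pow, sq_abs]
      nlinarith
    exact abs_le_of_sq_le_sq' h9 (by positivity) |>.2
  have hgeo : ∀ x y : X, IsGeodesic (γ x y) x y := by
    intro x y
    refine ⟨h0 x y, h1 x y, ?_⟩
    -- it suffices to treat `s ≤ t`
    have key : ∀ s ∈ Icc (0 : ℝ) 1, ∀ t ∈ Icc (0 : ℝ) 1, s ≤ t →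
        dist (γ x y s) (γ x y t) = |s - t| * dist x y := by
      intro s hs t ht hst
      refine le_antisymm (hle x y s hs t ht) ?_
      have a1 := hle x y 0 ⟨le_rfl, zero_le_one⟩ s hs
      have a2 := hle x y t ht 1 ⟨zero_le_one, le_rfl⟩
      rw [h0, abs_of_nonpos (by linarith [hs.1] : (0 : ℝ) - s ≤ 0)] at a1
      rw [h1, abs_of_nonpos (by linarith [ht.2] : t - 1 ≤ 0)] at a2
      have a3 : dist x y ≤ dist x (γ x y s) + dist (γ x y s) (γ x y t) + dist (γ x y t) y :=
        dist_triangle4 _ _ _ _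
      rw [abs_of_nonpos (by linarith : s - t ≤ 0)]
      nlinarith
    intro s hs t ht
    rcases le_total s t with hst | hst
    · exact key s hs t ht hst
    · rw [dist_comm, abs_sub_comm]; exact key t ht s hs hst
  refine ⟨fun x y => ⟨γ x y, hgeo x y⟩, ?_⟩
  intro x y p γ' hγ' t ht
  have heq : γ' t = γ x y t := by
    -- the point `γ' t` is at the right distances
    obtain ⟨g0, g1, hd⟩ := hγ'
    have b1 := hd t ht 0 ⟨le_rfl, zero_le_one⟩
    have b2 := hd t ht 1 ⟨zero_le_one, le_rfl⟩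
    rw [g0, sub_zero, abs_of_nonneg ht.1] at b1
    rw [g1, abs_sub_comm, abs_of_nonneg (by linarith [ht.2])] at b2
    have h := hC (γ' t) x y t ht
    rw [b1, b2] at h
    have h6 : dist (γ' t) (γ x y t) ^ 2 ≤ 0 := by nlinarith
    have h7 : dist (γ' t) (γ x y t) = 0 := by
      have := @dist_nonneg _ _ (γ' t) (γ x y t)
      nlinarith
    exact dist_eq_zero.1 h7
  rw [heq]
  exact hC p x y t ht

end Pool.Agent.Work.MP_f0c219_gt
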