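import Mathlib

/-!
# Definitions for MP_f0c219_gt (locally CAT(0) metrics on irreducible HDG manifolds)

Metric part (geodesics, CAT(0), locally CAT(0) metrics), group part (word metrics,
quasi-isometries), and the HDG part: cusped hyperbolic 3-manifolds given by torsion-free lattices
in `SL(2, ℂ)` acting on upper half space, truncated along horoballs, their products with a circle,
and the 4-manifolds obtained by gluing two such pieces along one boundary torus.
-/

open Set Topology
open scoped ComplexConjugate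

namespace Pool.Agent.Work.MP_f0c219_gt

/-! ## CAT(0) -/

/-- The restriction of `γ` to `[0,1]` is a geodesic from `x` to `y` (proportional to arc length). -/
def IsGeodesic {X : Type*} [MetricSpace X] (γ : ℝ → X) (x y : X) : Prop :=
  γ 0 = x ∧ γ 1 = y ∧
    ∀ s ∈ Icc (0 : ℝ) 1, ∀ t ∈ Icc (0 : ℝ) 1, dist (γ s) (γ t) = |s - t| * dist x y

/-- A CAT(0) space: geodesic, and distances from a point `p` to a geodesic are at most the
distances in the Euclidean comparison triangle. -/
def IsCAT0 (X : Type*) [MetricSpace X] : Prop :=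
  (∀ x y : X, ∃ γ : ℝ → X, IsGeodesic γ x y) ∧
  ∀ (x y p : X) (γ : ℝ → X), IsGeodesic γ x y → ∀ t ∈ Icc (0 : ℝ) 1,
    dist p (γ t) ^ 2 ≤ (1 - t) * dist p x ^ 2 + t * dist p y ^ 2 - t * (1 - t) * dist x y ^ 2

/-- Every point has a neighbourhood that is CAT(0) in the induced metric. -/
def LocallyCAT0 (X : Type*) [MetricSpace X] : Prop :=
  ∀ x : X, ∃ U ∈ 𝓝 x, IsCAT0 U

/-- The distance is the infimum of the lengths of paths. -/
def IsLengthMetric (X : Type*) [MetricSpace X] : Prop :=
  ∀ (x y : X) (ε : ℝ), 0 < ε → ∃ γ : C(unitInterval, X), γ 0 = x ∧ γ 1 = y ∧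
    eVariationOn γ univ ≤ ENNReal.ofReal (dist x y + ε)

/-- The topological space `M` admits a locally CAT(0) metric. -/
def AdmitsLocallyCAT0 (M : Type*) [t : TopologicalSpace M] : Prop :=
  ∃ m : MetricSpace M, m.toUniformSpace.toTopologicalSpace = t ∧
    @IsLengthMetric M m ∧ @LocallyCAT0 M m

/-! ## Quasi-isometric groups -/

/-- Word length with respect to `S` (and the inverses of elements of `S`). -/
noncomputable def wordLength {G : Type*} [Group G] (S : Set G) (g : G) : ℕ :=
  sInf {n | ∃ l : List G, l.length = n ∧ (∀ x ∈ l, x ∈ S ∨ x⁻¹ ∈ S) ∧ l.prod = g}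

/-- `G` and `H` are finitely generated and quasi-isometric. -/
def QuasiIsometric (G H : Type*) [Group G] [Group H] : Prop :=
  ∃ (S : Set G) (T : Set H), S.Finite ∧ T.Finite ∧
    Subgroup.closure S = ⊤ ∧ Subgroup.closure T = ⊤ ∧
    ∃ (f : G → H) (K : ℕ),
      (∀ x y, wordLength T ((f x)⁻¹ * f y) ≤ K * wordLength S (x⁻¹ * y) + K) ∧
      (∀ x y, wordLength S (x⁻¹ * y) ≤ K * wordLength T ((f x)⁻¹ * f y) + K) ∧
      ∀ h, ∃ x, wordLength T ((f x)⁻¹ * h) ≤ K

/-! ## Hyperbolic 3-space -/

/-- Upper half space `{(z, t) : z ∈ ℂ, t > 0}`. -/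
abbrev H3 : Type := {q : ℂ × ℝ // 0 < q.2}

/-- `SL(2, ℂ)`, acting on upper half space by orientation preserving isometries. -/
abbrev SL2C : Type := Matrix.SpecialLinearGroup (Fin 2) ℂ

/-- `|c z + d|² + |c|² t²` -/
noncomputable def den (g : SL2C) (q : H3) : ℝ :=
  Complex.normSq (g 1 0 * q.1.1 + g 1 1) + Complex.normSq (g 1 0) * q.1.2 ^ 2

theorem den_pos (g : SL2C) (q : H3) : 0 < den g q := by
  have hdet := g.det_coe
  rw [Matrix.det_fin_two] at hdet
  have ht := q.2
  unfold den
  by_cases hc : g 1 0 = 0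
  · have hd : g 1 1 ≠ 0 := by
      intro hd
      rw [hc, hd] at hdet
      simp at hdet
    rw [hc]
    have : 0 < Complex.normSq (g 1 1) := Complex.normSq_pos.2 hd
    simpa using this
  · have h1 : 0 < Complex.normSq (g 1 0) := Complex.normSq_pos.2 hc
    have h2 := Complex.normSq_nonneg (g 1 0 * q.1.1 + g 1 1)
    positivity

/-- The Poincaré extension of the Möbius transformation `g`. -/
noncomputable def mob (g : SL2C) (q : H3) : H3 :=
  ⟨(((g 0 0 * q.1.1 + g 0 1) * (starRingEnd ℂ) (g 1 0 * q.1.1 + g 1 1) +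
      g 0 0 * (starRingEnd ℂ) (g 1 0) * (q.1.2 : ℂ) ^ 2) / (den g q : ℂ),
    q.1.2 / den g q), div_pos q.2 (den_pos g q)⟩

/-- The positive Hermitian matrix of determinant one attached to a point of `H3`. -/
noncomputable def herm (q : H3) : Matrix (Fin 2) (Fin 2) ℂ :=
  !![((Complex.normSq q.1.1 + q.1.2 ^ 2 : ℝ) : ℂ) / q.1.2, q.1.1 / q.1.2;
     conj q.1.1 / q.1.2, 1 / q.1.2]

theorem herm_injective : Function.Injective herm := by
  intro q r h
  have ht : (q.1.2 : ℂ) ≠ 0 := by exact_mod_cast q.2.ne'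
  have hs : (r.1.2 : ℂ) ≠ 0 := by exact_mod_cast r.2.ne'
  have h11 := congrFun (congrFun h 1) 1
  have h01 := congrFun (congrFun h 0) 1
  simp only [herm, Matrix.of_apply, Matrix.cons_val', Matrix.cons_val_one, Matrix.cons_val_zero,
    Matrix.cons_val_fin_one] at h11 h01
  have e1 : (q.1.2 : ℂ) = r.1.2 := by
    field_simp at h11
    exact h11.symm
  have e2 : q.1.2 = r.1.2 := by exact_mod_cast e1
  have e3 : q.1.1 = r.1.1 := by
    rw [e1] at h01
    field_simp at h01
    exact h01
  exact Subtype.ext (Prod.ext e3 e2)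

theorem lagrange (g : SL2C) (z : ℂ) (t : ℝ) :
    (Complex.normSq (g 0 0 * z + g 0 1) + Complex.normSq (g 0 0) * t ^ 2) *
      (Complex.normSq (g 1 0 * z + g 1 1) + Complex.normSq (g 1 0) * t ^ 2) =
    Complex.normSq ((g 0 0 * z + g 0 1) * conj (g 1 0 * z + g 1 1) +
      g 0 0 * conj (g 1 0) * (t : ℂ) ^ 2) + t ^ 2 := by
  have hdet := g.det_coe
  rw [Matrix.det_fin_two] at hdet
  have key : ((Complex.normSq (g 0 0 * z + g 0 1) + Complex.normSq (g 0 0) * t ^ 2) *
      (Complex.normSq (g 1 0 * z + g 1 1) + Complex.normSq (g 1 0) * t ^ 2) : ℂ) =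
    Complex.normSq ((g 0 0 * z + g 0 1) * conj (g 1 0 * z + g 1 1) +
      g 0 0 * conj (g 1 0) * (t : ℂ) ^ 2) + t ^ 2 * ((g 0 0 * g 1 1 - g 0 1 * g 1 0) *
        conj (g 0 0 * g 1 1 - g 0 1 * g 1 0)) := by
    simp only [Complex.normSq_eq_conj_mul_self, map_add, map_mul, map_sub, map_pow,
      Complex.conj_conj, Complex.conj_ofReal]
    ring
  rw [hdet] at key
  simp only [map_one, mul_one] at key
  exact_mod_cast key

theorem herm_mob (g : SL2C) (q : H3) :
    herm (mob g q) = (g : Matrix (Fin 2) (Fin 2) ℂ) * herm q * (g : Matrix (Fin 2) (Fin 2) ℂ).conjTranspose := by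
  have ht : (q.1.2 : ℂ) ≠ 0 := by exact_mod_cast q.2.ne'
  have hD : (den g q : ℂ) ≠ 0 := by exact_mod_cast (den_pos g q).ne'
  have hden : (den g q : ℂ) = Complex.normSq (g 1 0 * q.1.1 + g 1 1) +
      Complex.normSq (g 1 0) * q.1.2 ^ 2 := by
    unfold den; push_cast; rfl
  have hden' : (den g q : ℂ) = conj (g 1 0 * q.1.1 + g 1 1) * (g 1 0 * q.1.1 + g 1 1) +
      conj (g 1 0) * g 1 0 * q.1.2 ^ 2 := by
    rw [hden]; simp only [Complex.normSq_eq_conj_mul_self]
  have hnum : ((Complex.normSq ((mob g q).1.1) + (mob g q).1.2 ^ 2 : ℝ) : ℂ) =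
      (Complex.normSq (g 0 0 * q.1.1 + g 0 1) + Complex.normSq (g 0 0) * q.1.2 ^ 2) / den g q := by
    have h1 : Complex.normSq ((mob g q).1.1) + (mob g q).1.2 ^ 2 =
        (Complex.normSq (g 0 0 * q.1.1 + g 0 1) + Complex.normSq (g 0 0) * q.1.2 ^ 2) / den g q := by
      unfold mob
      simp only
      rw [Complex.normSq_div, Complex.normSq_ofReal, div_pow, ← pow_two, ← add_div, ← lagrange]
      have := (den_pos g q).ne'
      unfold den at this ⊢
      field_simp
    rw [h1]; push_cast; rfl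
  ext i j
  fin_cases i <;> fin_cases j
  · simp only [herm, Matrix.mul_apply, Fin.sum_univ_two, Matrix.conjTranspose_apply, Fin.zero_eta,
      Matrix.of_apply, Matrix.cons_val', Matrix.cons_val_zero, Matrix.cons_val_one,
      Matrix.cons_val_fin_one, Fin.mk_one, RCLike.star_def]
    rw [hnum]
    simp only [mob]
    push_cast
    simp only [Complex.normSq_eq_conj_mul_self, map_add, map_mul]
    field_simp
    ring
  · simp only [herm, Matrix.mul_apply, Fin.sum_univ_two, Matrix.conjTranspose_apply, Fin.zero_eta,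
      Matrix.of_apply, Matrix.cons_val', Matrix.cons_val_zero, Matrix.cons_val_one,
      Matrix.cons_val_fin_one, Fin.mk_one, RCLike.star_def]
    simp only [mob]
    push_cast
    simp only [Complex.normSq_eq_conj_mul_self, map_add, map_mul]
    field_simp
    ring
  · simp only [herm, Matrix.mul_apply, Fin.sum_univ_two, Matrix.conjTranspose_apply, Fin.zero_eta,
      Matrix.of_apply, Matrix.cons_val', Matrix.cons_val_zero, Matrix.cons_val_one,
      Matrix.cons_val_fin_one, Fin.mk_one, RCLike.star_def]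
    simp only [mob]
    push_cast
    simp only [Complex.normSq_eq_conj_mul_self, map_add, map_mul, map_div₀, Complex.conj_conj,
      Complex.conj_ofReal, map_pow]
    field_simp
    ring
  · simp only [herm, Matrix.mul_apply, Fin.sum_univ_two, Matrix.conjTranspose_apply, Fin.zero_eta,
      Matrix.of_apply, Matrix.cons_val', Matrix.cons_val_zero, Matrix.cons_val_one,
      Matrix.cons_val_fin_one, Fin.mk_one, RCLike.star_def]
    simp only [mob]
    push_cast
    rw [hden']
    simp only [Complex.normSq_eq_conj_mul_self, map_add, map_mul]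
    field_simp
    ring

noncomputable instance : MulAction SL2C H3 where
  smul := mob
  one_smul q := by
    apply herm_injective
    change herm (mob 1 q) = _
    rw [herm_mob]
    simp
  mul_smul g h q := by
    apply herm_injective
    change herm (mob (g * h) q) = herm (mob g (mob h q))
    rw [herm_mob, herm_mob, herm_mob]
    simp [Matrix.mul_assoc, Matrix.conjTranspose_mul]

theorem smul_def (g : SL2C) (q : H3) : g • q = mob g q := rfl

/-- Hyperbolic volume, `dx dy dt / t³`. -/
noncomputable def hypVolume (F : Set H3) : ENNReal :=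
  ∫⁻ q in (Subtype.val '' F : Set (ℂ × ℝ)), ENNReal.ofReal (1 / q.2 ^ 3)

/-- The open horoball `h • {t > 1}`. -/
def horoball (h : SL2C) : Set H3 := (fun q => h • q) '' {q : H3 | 1 < q.1.2}

/-- The parabolic translation `(z, t) ↦ (z + w, t)`. -/
def translate (w : ℂ) (q : H3) : H3 := ⟨(q.1.1 + w, q.1.2), q.2⟩

/-- The point `(z, t)` of upper half space. -/
def pt (z : ℂ) (t : ℝ) (ht : 0 < t) : H3 := ⟨(z, t), ht⟩

/-- A complete non-compact finite-volume oriented hyperbolic 3-manifold `N = H3 / Γ` with toric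
cusps, together with disjoint open horospherical neighbourhoods of its cusps. -/
structure CuspedHyp3 where
  /-- the holonomy group (it may contain `-1`, which acts trivially) -/
  Γ : Subgroup SL2C
  discrete : ∀ K : Set H3, IsCompact K →
    {g : SL2C | g ∈ Γ ∧ (((fun q => g • q) '' K) ∩ K).Nonempty}.Finite
  free : ∀ g ∈ Γ, ∀ q : H3, g • q = q → g = 1 ∨ g = -1
  finiteVolume : ∃ F : Set H3, MeasurableSet F ∧ (∀ q : H3, ∃ g ∈ Γ, g • q ∈ F) ∧
    hypVolume F < ⊤
  /-- the horoballs `h • {t > 1}`, `h ∈ cusps`, are the preimages of the cusp neighbourhoods -/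
  cusps : Set SL2C
  nonempty : cusps.Nonempty
  invariant : ∀ g ∈ Γ, ∀ h ∈ cusps, g * h ∈ cusps
  disjoint : ∀ h ∈ cusps, ∀ h' ∈ cusps, horoball h = horoball h' ∨
    Disjoint (closure (horoball h)) (closure (horoball h'))
  /-- outside the horoballs the quotient is compact -/
  cocompact : ∃ K : Set H3, IsCompact K ∧
    ∀ q : H3, (∀ h ∈ cusps, q ∉ horoball h) → ∃ g ∈ Γ, g • q ∈ K
  /-- the stabiliser of each horoball acts on it by translations: the cusps are tori -/
  toric : ∀ h ∈ cusps, ∀ g ∈ Γ, (fun q => g • q) '' horoball h = horoball h →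
    ∃ w : ℂ, ∀ q : H3, (h⁻¹ * g * h) • q = translate w q

namespace CuspedHyp3

variable (D : CuspedHyp3)

/-- Hyperbolic space minus the open horoballs. -/
def Core : Type := {q : H3 // ∀ h ∈ D.cusps, q ∉ horoball h}

instance : TopologicalSpace D.Core := inferInstanceAs (TopologicalSpace {q : H3 // _})

/-- The orbit relation of `Γ` on the truncated hyperbolic space. -/
def coreSetoid : Setoid D.Core where
  r x y := ∃ g ∈ D.Γ, g • x.1 = y.1
  iseqv := by
    refine ⟨fun x => ⟨1, D.Γ.one_mem, one_smul _ _⟩, ?_, ?_⟩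
    · rintro x y ⟨g, hg, h⟩
      exact ⟨g⁻¹, D.Γ.inv_mem hg, by rw [← h, inv_smul_smul]⟩
    · rintro x y z ⟨g, hg, h⟩ ⟨g', hg', h'⟩
      exact ⟨g' * g, D.Γ.mul_mem hg' hg, by rw [mul_smul, h, h']⟩

/-- The compact manifold `N̄` with toric boundary: `N` minus the open cusp neighbourhoods. -/
def Nbar : Type := Quotient D.coreSetoid

instance : TopologicalSpace D.Nbar := inferInstanceAs (TopologicalSpace (Quotient _))

/-- The piece `V = N̄ × S¹`. -/
abbrev Piece : Type := D.Nbar × AddCircle (1 : ℝ)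

/-- The lattice in `ℂ × ℝ` such that `(ℂ × ℝ) / lattice` is the boundary torus of the piece at the
cusp `h`: the translations in the stabiliser of the horoball, times `ℤ` (the fibre subgroup is
`0 × ℤ`). -/
def lattice (h : SL2C) : Set (ℂ × ℝ) :=
  {p | (∃ g ∈ D.Γ, ∀ q : H3, (h⁻¹ * g * h) • q = translate p.1 q) ∧ ∃ n : ℤ, p.2 = n}

/-- `x` is the point of the boundary torus of the piece at the cusp `h` with coordinates `p`. -/
def IsBoundaryPoint (h : SL2C) (p : ℂ × ℝ) (x : D.Piece) : Prop :=
  ∃ y : D.Core, y.1 = h • pt p.1 1 one_pos ∧ x = (Quotient.mk D.coreSetoid y, (p.2 : AddCircle (1 : ℝ)))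

end CuspedHyp3

/-- Data for gluing two pieces `V = N̄ × S¹`, `W = N̄' × S¹` along one boundary torus of each by an
affine diffeomorphism: `L` is a linear automorphism of the universal cover `ℂ × ℝ` of the tori
matching the two lattices. -/
structure Gluing where
  V : CuspedHyp3
  W : CuspedHyp3
  a : SL2C
  b : SL2C
  a_mem : a ∈ V.cusps
  b_mem : b ∈ W.cusps
  L : (ℂ × ℝ) ≃ₗ[ℝ] (ℂ × ℝ)
  lattice_iff : ∀ p : ℂ × ℝ, p ∈ V.lattice a ↔ L p ∈ W.lattice b

namespace Gluing

variable (D : Gluing)

/-- The glued 4-manifold: the quotient of `V ⊔ W` identifying the two boundary tori. -/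
def Space : Type :=
  Quot (fun x y : D.V.Piece ⊕ D.W.Piece => ∃ (p : ℂ × ℝ) (v : D.V.Piece) (w : D.W.Piece),
    D.V.IsBoundaryPoint D.a p v ∧ D.W.IsBoundaryPoint D.b (D.L p) w ∧ x = .inl v ∧ y = .inr w)

instance : TopologicalSpace D.Space := inferInstanceAs (TopologicalSpace (Quot _))

/-- Irreducible: the fibres are transverse along the internal wall, i.e. the gluing maps the fibre
subgroup `0 × ℤ` to a subgroup meeting `0 × ℤ` trivially. -/
def Irreducible : Prop := ∀ n : ℤ, (D.L (0, (n : ℝ))).1 = 0 → n = 0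

end Gluing

end Pool.Agent.Work.MP_f0c219_gt
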