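import Pool.Agent.Work.MP_f0c219_gt.Flip
import Pool.Agent.Work.MP_f0c219_gt_h82.Obstruct
import Pool.Agent.Work.MP_f0c219_gt_h67.Hadamard

/-!
# The twisted gluing admits no locally CAT(0) metric (by helper67, from GroupSide.lean)
-/

open Set Topology
open scoped ComplexConjugate commutatorElement

namespace Pool.Agent.Work.MP_f0c219_gt.NotCat0

/-! ## The holonomy group -/

open Model Borromean

theorem toC_neg (γ : SL2Gi) : toC (-γ) = -toC γ := by
  apply Subtype.ext
  apply Matrix.ext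
  intro i j
  change GaussianInt.toComplex (-(γ i j)) = -(GaussianInt.toComplex (γ i j))
  rw [map_neg]

/-- The homomorphism from the arithmetic group to the holonomy group. -/
noncomputable def pr (γ : SL2Gi) (hγ : InGam γ) : PG :=
  ⟨MulAction.toPermHom SL2C H3 (toC γ), mem_PG.2 ⟨γ, hγ, fun _ => rfl⟩⟩

theorem pr_apply (γ : SL2Gi) (hγ : InGam γ) (q : H3) : (pr γ hγ).1 q = toC γ • q := rfl

theorem pr_mul {γ δ : SL2Gi} (hγ : InGam γ) (hδ : InGam δ) :
    pr (γ * δ) (inGam_mul hγ hδ) = pr γ hγ * pr δ hδ := by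
  apply Subtype.ext
  change MulAction.toPermHom SL2C H3 (toC (γ * δ)) = _
  rw [map_mul, map_mul]
  rfl

theorem pr_inv {γ : SL2Gi} (hγ : InGam γ) : pr γ⁻¹ (inGam_inv hγ) = (pr γ hγ)⁻¹ := by
  apply Subtype.ext
  change MulAction.toPermHom SL2C H3 (toC γ⁻¹) = _
  rw [map_inv, map_inv]
  rfl

theorem pr_surj (σ : PG) : ∃ (γ : SL2Gi) (hγ : InGam γ), pr γ hγ = σ := by
  obtain ⟨γ, hγ, h⟩ := mem_PG.1 σ.2
  refine ⟨γ, hγ, ?_⟩
  apply Subtype.ext
  ext1 q
  exact (h q).symm

theorem pr_eq_iff {γ δ : SL2Gi} (hγ : InGam γ) (hδ : InGam δ) (h : pr γ hγ = pr δ hδ) :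
    δ = γ ∨ δ = -γ := by
  have h1 : toC (γ⁻¹ * δ) • pt 0 1 one_pos = pt 0 1 one_pos := by
    have := congrArg (fun σ : PG => σ.1 (pt 0 1 one_pos)) h
    simp only [pr_apply] at this
    rw [map_mul, mul_smul, ← this, map_inv, inv_smul_smul]
  rcases gam_free (inGam_mul (inGam_inv hγ) hδ) _ h1 with h2 | h2
  · left
    have h3 : γ⁻¹ * δ = 1 := toC_injective (by rw [h2, map_one])
    exact (inv_mul_eq_one.1 h3).symm
  · right
    have h3 : γ⁻¹ * δ = -1 := toC_injective (by rw [h2, toC_neg, map_one])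
    have h4 : δ = γ * -1 := by rw [← h3, mul_inv_cancel_left]
    rw [h4, mul_neg, mul_one]

/-- The parabolic element with coordinates `a`, `b`. -/
noncomputable def tr (a b : ℤ) : PG :=
  ⟨trPerm (Multiplicative.ofAdd ((a : ℂ) * mu + (b : ℂ) * lam)), trPerm_mem a b⟩

theorem pr_Tr (a b : ℤ) : pr _ (inGam_Tr a b) = tr a b := by
  apply Subtype.ext
  ext1 q
  rw [pr_apply, Tr_smul]
  change _ = translate ((a : ℂ) * mu + (b : ℂ) * lam) q
  congr 1
  rw [map_add, map_mul, map_mul]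
  simp only [GaussianInt.toComplex_def, Zsqrtd.re_intCast, Zsqrtd.im_intCast, mu, lam]
  push_cast
  ring

theorem tr_mul (a b a' b' : ℤ) : tr a b * tr a' b' = tr (a + a') (b + b') := by
  apply Subtype.ext
  change trPerm _ * trPerm _ = trPerm _
  rw [← map_mul, ← ofAdd_add]
  congr 2
  push_cast
  ring

theorem tr_injective {a b a' b' : ℤ} (h : tr a b = tr a' b') : a = a' ∧ b = b' := by
  have h1 := congrArg (fun σ : PG => (σ.1 (pt 0 1 one_pos)).1.1) h
  have h2 : (0 : ℂ) + ((a : ℂ) * mu + (b : ℂ) * lam) = 0 + ((a' : ℂ) * mu + (b' : ℂ) * lam) := h1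
  rw [zero_add, zero_add] at h2
  have hre := congrArg Complex.re h2
  have him := congrArg Complex.im h2
  simp [mu_re, mu_im, lam_re, lam_im] at hre him
  constructor
  · have : (a : ℝ) = a' := by linarith
    exact_mod_cast this
  · have : (b : ℝ) = b' := by linarith
    exact_mod_cast this

theorem per_apply (v : Multiplicative Z3) :
    per v = (tr v.toAdd.1 v.toAdd.2.1, Multiplicative.ofAdd v.toAdd.2.2) := rfl

theorem per_injective : Function.Injective per := by
  intro v w h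
  rw [per_apply, per_apply] at h
  have h1 := congrArg Prod.fst h
  have h2 := congrArg Prod.snd h
  obtain ⟨e1, e2⟩ := tr_injective h1
  have e3 : v.toAdd.2.2 = w.toAdd.2.2 := Multiplicative.ofAdd.injective h2
  apply Multiplicative.toAdd.injective
  exact Prod.ext e1 (Prod.ext e2 e3)

/-! ## J4 -/

theorem commutator_PG : ⁅pr zM⁻¹ (inGam_inv inGam_zM), pr yM⁻¹ (inGam_inv inGam_yM)⁆ = tr 0 1 := by
  have h1 : InGam ⁅zM⁻¹, yM⁻¹⁆ := by
    rw [commutatorElement_def]
    exact inGam_mul (inGam_mul (inGam_mul (inGam_inv inGam_zM) (inGam_inv inGam_yM))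
      (inGam_inv (inGam_inv inGam_zM))) (inGam_inv (inGam_inv inGam_yM))
  have h2 : ⁅pr zM⁻¹ (inGam_inv inGam_zM), pr yM⁻¹ (inGam_inv inGam_yM)⁆ = pr _ h1 := by
    rw [commutatorElement_def, ← pr_inv, ← pr_inv, ← pr_mul, ← pr_mul, ← pr_mul]
    rfl
  rw [h2]
  have h3 := pr_Tr 0 1
  apply Subtype.ext
  ext1 q
  rw [← h3, pr_apply, pr_apply, commutator_eq]
  have h4 : ((0 : ℤ) : GaussianInt) * ⟨1, 1⟩ + ((1 : ℤ) : GaussianInt) * ⟨-2, 2⟩ = ⟨-2, 2⟩ := by
    simp
  rw [h4, toC_neg]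
  apply herm_injective
  rw [smul_def, smul_def, herm_mob, herm_mob]
  simp

theorem action_of_admits {M : Type} [t : TopologicalSpace M] [CompactSpace M]
    (h : AdmitsLocallyCAT0 M) (p : M) :
    ∃ (X : Type) (_ : MetricSpace X) (_ : MulAction (FundamentalGroup M p) X), Nonempty X ∧
      IsCAT0 X ∧ (∀ (g : FundamentalGroup M p) (x y : X), dist (g • x) (g • y) = dist x y) ∧
      ∃ δ : ℝ, 0 < δ ∧ ∀ g : FundamentalGroup M p, g ≠ 1 → ∀ x : X, δ ≤ dist x (g • x) := by
  obtain ⟨m, hm, -, hloc⟩ := h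
  subst hm
  exact Hadamard.cartan_hadamard hloc p

theorem commutator_VG : ((tr 0 1, 1) : VG) =
    ⁅((pr zM⁻¹ (inGam_inv inGam_zM), 1) : VG), ((pr yM⁻¹ (inGam_inv inGam_yM), 1) : VG)⁆ := by
  ext1
  · exact commutator_PG.symm
  · change (1 : Multiplicative ℤ) = ⁅(1 : Multiplicative ℤ), (1 : Multiplicative ℤ)⁆
    rw [commutatorElement_self]

/-- The fibre of the piece. -/
noncomputable def fib : VG := (1, Multiplicative.ofAdd 1)

theorem fib_eq : fib = per (Multiplicative.ofAdd (0, 0, 1)) := by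
  rw [per_apply]
  ext1
  · change (1 : PG) = tr 0 0
    apply Subtype.ext
    change _ = trPerm _
    simp
  · rfl

theorem fib_comm (x : PG) : fib * (x, 1) = (x, 1) * fib := by
  ext1
  · change 1 * x = x * 1
    rw [one_mul, mul_one]
  · change Multiplicative.ofAdd (1 : ℤ) * 1 = 1 * Multiplicative.ofAdd (1 : ℤ)
    rw [one_mul, mul_one]

theorem fib_ne_one : fib ≠ 1 := by
  intro h1
  have h2 := congrArg Prod.snd h1
  have h3 : (1 : ℤ) = 0 := Multiplicative.ofAdd.injective h2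
  omega

theorem no_action_aux {X : Type} [MetricSpace X] [Nonempty X] (hX : IsCAT0 X) {G : Type} [Group G]
    [MulAction G X] (hiso : ∀ (g : G) (x y : X), dist (g • x) (g • y) = dist x y)
    (hdisp : ∃ δ : ℝ, 0 < δ ∧ ∀ g : G, g ≠ 1 → ∀ x : X, δ ≤ dist x (g • x))
    (I J : VG →* G) (hrel : ∀ v : Multiplicative Z3, I (per v) =
      J (per (Multiplicative.ofAdd (flipE 1 v.toAdd)))) : I fib = 1 := by
  have hcomm : ∀ (K : VG →* G) (x : PG), Commute (K fib) (K (x, 1)) := by
    intro K x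
    change K fib * K (x, 1) = K (x, 1) * K fib
    rw [← map_mul, ← map_mul, fib_comm]
  have hperl : per (Multiplicative.ofAdd (0, 1, 0)) = (tr 0 1, 1) := rfl
  -- the two relations
  have r1 : I fib = J (tr 0 1, 1) := by
    rw [fib_eq, hrel, ← hperl]
    congr 1
  have r2 : I (tr 0 1, 1) = J (per (Multiplicative.ofAdd (0, -1, 1))) := by
    rw [← hperl, hrel]
    congr 1
  have r3 : J fib = I (tr 0 1, 1) * I fib := by
    rw [r1, r2, ← hperl, ← map_mul, ← map_mul, fib_eq]
    rfl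
  have r4 : I (tr 0 1, 1) = ⁅I (pr zM⁻¹ (inGam_inv inGam_zM), 1),
      I (pr yM⁻¹ (inGam_inv inGam_yM), 1)⁆ := by
    rw [← map_commutatorElement, ← commutator_VG]
  have r5 : I fib = ⁅J (pr zM⁻¹ (inGam_inv inGam_zM), 1),
      J (pr yM⁻¹ (inGam_inv inGam_yM), 1)⁆ := by
    rw [← map_commutatorElement, ← commutator_VG]
    exact r1
  exact Obstruct.obstruction hX hiso hdisp (hcomm I _) (hcomm I _) r4 r3 (hcomm J _) (hcomm J _) r5

theorem no_action {X : Type} [MetricSpace X] [Nonempty X] (hX : IsCAT0 X)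
    [MulAction (Monoid.PushoutI (flip 1).phi) X]
    (hiso : ∀ (g : Monoid.PushoutI (flip 1).phi) (x y : X), dist (g • x) (g • y) = dist x y)
    (hdisp : ∃ δ : ℝ, 0 < δ ∧ ∀ g : Monoid.PushoutI (flip 1).phi, g ≠ 1 →
      ∀ x : X, δ ≤ dist x (g • x)) : False := by
  have hinj : ∀ i, Function.Injective ((flip 1).phi i) := by
    intro i
    cases i
    · intro v w h
      have h1 := per_injective h
      exact (flip 1).E.injective h1
    · exact per_injective
  have hf := no_action_aux hX hiso hdisp (Monoid.PushoutI.of (φ := (flip 1).phi) true)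
    (Monoid.PushoutI.of (φ := (flip 1).phi) false) (fun v =>
      (Monoid.PushoutI.of_apply_eq_base (flip 1).phi true v).trans
        (Monoid.PushoutI.of_apply_eq_base (flip 1).phi false v).symm)
  exact fib_ne_one (Monoid.PushoutI.of_injective hinj true (hf.trans (map_one _).symm))

theorem not_admits_aux {M : Type} [TopologicalSpace M] [CompactSpace M] (p : M)
    (e : Nonempty (FundamentalGroup M p ≃* (Monoid.PushoutI (flip 1).phi)ᵐᵒᵖ)) :
    ¬ AdmitsLocallyCAT0 M := by
  intro h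
  obtain ⟨e⟩ := e
  obtain ⟨X, hXm, hXa, hne, hX, hiso, δ, hδ, hdisp⟩ := action_of_admits h p
  let ψ : Monoid.PushoutI (flip 1).phi ≃* FundamentalGroup M p :=
    (MulEquiv.inv' _).trans e.symm
  let _ : MulAction (Monoid.PushoutI (flip 1).phi) X := MulAction.compHom X ψ.toMonoidHom
  refine no_action hX (fun g x y => hiso (ψ g) x y) ⟨δ, hδ, ?_⟩
  intro g hg x
  refine hdisp (ψ g) ?_ x
  intro h1
  exact hg (ψ.injective (h1.trans (map_one ψ).symm))

/-- J4 -/
theorem not_admits [CompactSpace (flip 1).toGluing.Space]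
    (hpi : PathConnectedSpace (flip 1).toGluing.Space ∧ ∀ p : (flip 1).toGluing.Space,
      Nonempty (FundamentalGroup (flip 1).toGluing.Space p ≃*
        (Monoid.PushoutI (flip 1).phi)ᵐᵒᵖ)) :
    ¬ AdmitsLocallyCAT0 (flip 1).toGluing.Space := by
  have _ := hpi.1
  obtain ⟨p⟩ := (inferInstance : Nonempty (flip 1).toGluing.Space)
  exact not_admits_aux p (hpi.2 p)

end Pool.Agent.Work.MP_f0c219_gt.NotCat0
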