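import Pool.Agent.Work.MP_f0c219_gt.Flip
import Pool.Agent.Work.MP_f0c219_gt_h18.PushoutQI
import Pool.Agent.Work.MP_f0c219_gt_h18.Planes

/-!
# The two amalgams are quasi-isometric
-/

open Set Monoid Monoid.PushoutI

namespace Pool.Agent.Work.MP_f0c219_gt

/-! ### Transfer of quasi-isometries -/

theorem wordLength_map {G G' : Type*} [Group G] [Group G'] (e : G ≃* G') (S : Set G) (g : G) :
    wordLength (e '' S) (e g) = wordLength S g := by
  unfold wordLength
  congr 1
  ext n
  constructor
  · rintro ⟨l, hl, hl', hp⟩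
    refine ⟨l.map e.symm, by rw [List.length_map, hl], ?_, ?_⟩
    · intro x hx
      obtain ⟨y, hy, rfl⟩ := List.mem_map.1 hx
      rcases hl' y hy with ⟨s, hs, h⟩ | ⟨s, hs, h⟩
      · left; rw [← h, e.symm_apply_apply]; exact hs
      · right
        rw [← map_inv, ← h, e.symm_apply_apply]; exact hs
    · rw [← map_list_prod, hp, e.symm_apply_apply]
  · rintro ⟨l, hl, hl', hp⟩
    refine ⟨l.map e, by rw [List.length_map, hl], ?_, ?_⟩
    · intro x hx
      obtain ⟨y, hy, rfl⟩ := List.mem_map.1 hx
      rcases hl' y hy with h | h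
      · left; exact ⟨y, h, rfl⟩
      · right; exact ⟨y⁻¹, h, map_inv e y⟩
    · rw [← map_list_prod, hp]

theorem QuasiIsometric.of_equiv {G H G' H' : Type*} [Group G] [Group H] [Group G'] [Group H']
    (h : QuasiIsometric G H) (e : G ≃* G') (e' : H ≃* H') : QuasiIsometric G' H' := by
  obtain ⟨S, T, hS, hT, hS', hT', f, K, h1, h2, h3⟩ := h
  refine ⟨e '' S, e' '' T, hS.image _, hT.image _, ?_, ?_, fun x => e' (f (e.symm x)), K, ?_, ?_, ?_⟩
  · have := MonoidHom.map_closure e.toMonoidHom S
    rw [hS', Subgroup.map_top_of_surjective _ e.surjective] at this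
    exact this.symm
  · have := MonoidHom.map_closure e'.toMonoidHom T
    rw [hT', Subgroup.map_top_of_surjective _ e'.surjective] at this
    exact this.symm
  · intro x y
    rw [← map_inv, ← map_mul, wordLength_map]
    have h4 : wordLength (e '' S) (x⁻¹ * y) = wordLength S ((e.symm x)⁻¹ * e.symm y) := by
      rw [← wordLength_map e, map_mul, map_inv, e.apply_symm_apply, e.apply_symm_apply]
    rw [h4]
    exact h1 _ _
  · intro x y
    rw [← map_inv, ← map_mul, wordLength_map]
    have h4 : wordLength (e '' S) (x⁻¹ * y) = wordLength S ((e.symm x)⁻¹ * e.symm y) := by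
      rw [← wordLength_map e, map_mul, map_inv, e.apply_symm_apply, e.apply_symm_apply]
    rw [h4]
    exact h2 _ _
  · intro k
    obtain ⟨x, hx⟩ := h3 (e'.symm k)
    refine ⟨e x, ?_⟩
    simp only [e.symm_apply_apply]
    have h4 : (e' (f x))⁻¹ * k = e' ((f x)⁻¹ * e'.symm k) := by
      rw [map_mul, map_inv, e'.apply_symm_apply]
    rw [h4, wordLength_map]
    exact hx

theorem QuasiIsometric.transfer {G H G' H' : Type*} [Group G] [Group H] [Group G'] [Group H']
    (h : QuasiIsometric G H) (e : Nonempty (G' ≃* Gᵐᵒᵖ)) (e' : Nonempty (H' ≃* Hᵐᵒᵖ)) :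
    QuasiIsometric G' H' :=
  h.of_equiv ((MulEquiv.inv' G).trans e.some.symm) ((MulEquiv.inv' H).trans e'.some.symm)

section Reparam

variable {ι : Type*} {H : Type*} [Group H] {G : ι → Type*} [∀ i, Group (G i)]
  (φ : ∀ i, H →* G i) (τ : H ≃* H)

/-- The reparametrised edge maps. -/
def rphi : ∀ i, H →* G i := fun i => (φ i).comp τ.toMonoidHom

/-- Reparametrising the amalgamated subgroup. -/
noncomputable def rTo : PushoutI (rphi φ τ) →* PushoutI φ :=
  PushoutI.lift (fun i => of (φ := φ) i) ((base φ).comp τ.toMonoidHom) (by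
    intro i
    unfold rphi
    rw [← MonoidHom.comp_assoc, of_comp_eq_base])

/-- The inverse of `rTo`. -/
noncomputable def rInv : PushoutI φ →* PushoutI (rphi φ τ) :=
  PushoutI.lift (fun i => of (φ := rphi φ τ) i) ((base (rphi φ τ)).comp τ.symm.toMonoidHom) (by
    intro i
    ext h
    have := of_apply_eq_base (rphi φ τ) i (τ.symm h)
    have h2 : rphi φ τ i (τ.symm h) = φ i h := by
      change φ i (τ (τ.symm h)) = _
      rw [τ.apply_symm_apply]
    rw [h2] at this
    exact this)

theorem rTo_of (i : ι) (x : G i) : rTo φ τ (of i x) = of i x := PushoutI.lift_of _ _ _ _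

theorem rTo_base (x : H) : rTo φ τ (base _ x) = base φ (τ x) := PushoutI.lift_base _ _ _ _

theorem rInv_of (i : ι) (x : G i) : rInv φ τ (of i x) = of i x := PushoutI.lift_of _ _ _ _

theorem rInv_base (x : H) : rInv φ τ (base _ x) = base _ (τ.symm x) := PushoutI.lift_base _ _ _ _

/-- Reparametrising the amalgamated subgroup gives an isomorphic group. -/
noncomputable def reparam : PushoutI (rphi φ τ) ≃* PushoutI φ :=
  MonoidHom.toMulEquiv (rTo φ τ) (rInv φ τ)
    (by
      refine MonoidHom.ext fun x => ?_
      simp only [MonoidHom.coe_comp, Function.comp_apply, MonoidHom.id_apply]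
      induction x using PushoutI.induction_on with
      | of i g => rw [rTo_of, rInv_of]
      | base h => rw [rTo_base, rInv_base, τ.symm_apply_apply]
      | mul x y hx hy => rw [map_mul, map_mul, hx, hy])
    (by
      refine MonoidHom.ext fun x => ?_
      simp only [MonoidHom.coe_comp, Function.comp_apply, MonoidHom.id_apply]
      induction x using PushoutI.induction_on with
      | of i g => rw [rInv_of, rTo_of]
      | base h => rw [rInv_base, rTo_base, τ.apply_symm_apply]
      | mul x y hx hy => rw [map_mul, map_mul, hx, hy])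

end Reparam

namespace Model

open Borromean

/-! ### The parabolic subgroup -/

/-- The stabiliser of infinity in `PG`. -/
noncomputable def par : Multiplicative (ℤ × ℤ) →* PG where
  toFun v := ⟨trPerm (Multiplicative.ofAdd ((v.toAdd.1 : ℂ) * mu + (v.toAdd.2 : ℂ) * lam)),
    trPerm_mem _ _⟩
  map_one' := by
    apply Subtype.ext
    simp
  map_mul' v w := by
    apply Subtype.ext
    simp only [toAdd_mul, Prod.fst_add, Prod.snd_add, Subgroup.coe_mul]
    rw [← map_mul, ← ofAdd_add]
    congr 2
    push_cast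
    ring

theorem par_injective : Function.Injective par := by
  rw [injective_iff_map_eq_one]
  intro v hv
  have h1 := congrArg (fun σ : PG => (σ.1 (pt 0 1 one_pos)).1.1) hv
  change (0 : ℂ) + ((v.toAdd.1 : ℂ) * mu + (v.toAdd.2 : ℂ) * lam) = 0 at h1
  have h2 := congrArg Complex.re h1
  have h3 := congrArg Complex.im h1
  simp [mu_re, mu_im, lam_re, lam_im] at h2 h3
  have h4 : (v.toAdd.2 : ℝ) = 0 := by linarith
  have h5 : (v.toAdd.1 : ℝ) = 0 := by linarith
  have h6 : v.toAdd.2 = 0 := by exact_mod_cast h4
  have h7 : v.toAdd.1 = 0 := by exact_mod_cast h5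
  apply Multiplicative.toAdd.injective
  exact Prod.ext h7 h6

theorem per_eq (v : Multiplicative Z3) : per v =
    (par (Multiplicative.ofAdd (v.toAdd.1, v.toAdd.2.1)), Multiplicative.ofAdd v.toAdd.2.2) := rfl

theorem per_injective : Function.Injective per := by
  intro v w hvw
  rw [per_eq, per_eq, Prod.mk.injEq] at hvw
  have h1 := par_injective hvw.1
  have h2 : (v.toAdd.1, v.toAdd.2.1) = (w.toAdd.1, w.toAdd.2.1) := h1
  have h3 : v.toAdd.2.2 = w.toAdd.2.2 := hvw.2
  rw [Prod.mk.injEq] at h2
  apply Multiplicative.toAdd.injective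
  exact Prod.ext h2.1 (Prod.ext h2.2 h3)

theorem phi_injective (e : LatIso) (b : Bool) : Function.Injective (e.phi b) := by
  cases b
  · change Function.Injective (per.comp (AddMonoidHom.toMultiplicative e.E.toAddMonoidHom))
    rw [MonoidHom.coe_comp]
    refine per_injective.comp ?_
    intro x y hxy
    exact e.E.injective hxy
  · exact per_injective

/-! ### The quasimorphism on `PG` -/

/-- A matrix representing an element of `PG`. -/
noncomputable def rep (σ : PG) : SL2Gi := Classical.choose (mem_PG.1 σ.2)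

theorem rep_mem (σ : PG) : InGam (rep σ) := (Classical.choose_spec (mem_PG.1 σ.2)).1

theorem rep_smul (σ : PG) (q : H3) : toC (rep σ) • q = σ.1 q :=
  ((Classical.choose_spec (mem_PG.1 σ.2)).2 q).symm

theorem toC_neg_one : toC (-1) = -1 := by
  apply Subtype.ext
  ext i j
  fin_cases i <;> fin_cases j <;> simp [toC, Matrix.SpecialLinearGroup.map]

/-- Two matrices with the same action agree up to sign. -/
theorem eq_or_neg {g h : SL2Gi} (hg : InGam g) (hh : InGam h)
    (H : ∀ q : H3, toC g • q = toC h • q) : g = h ∨ g = -h := by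
  have h1 : InGam (h⁻¹ * g) := inGam_mul (inGam_inv hh) hg
  have h2 : toC (h⁻¹ * g) • pt 0 1 one_pos = pt 0 1 one_pos := by
    rw [map_mul, mul_smul, H, map_inv, inv_smul_smul]
  rcases gam_free h1 _ h2 with h3 | h3
  · left
    have h4 : h⁻¹ * g = 1 := toC_injective (by rw [h3, map_one])
    exact (inv_mul_eq_one.1 h4).symm
  · right
    have h4 : h⁻¹ * g = -1 := toC_injective (by rw [h3, toC_neg_one])
    rw [inv_mul_eq_iff_eq_mul] at h4
    rw [h4, mul_neg, mul_one]

theorem exists_quasi_PG : ∃ q : PG → ℤ, (∀ g h, |q (g * h) - q g - q h| ≤ 3) ∧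
    ∀ v, q (par v) = v.toAdd.2 := by
  obtain ⟨q, h1, h2, h3⟩ := BlockF.exists_quasimorphism
  refine ⟨fun σ => q (rep σ), ?_, ?_⟩
  · intro g h
    have h4 : rep (g * h) = rep g * rep h ∨ rep (g * h) = -(rep g * rep h) := by
      refine eq_or_neg (rep_mem _) (inGam_mul (rep_mem _) (rep_mem _)) fun q => ?_
      rw [rep_smul, map_mul, mul_smul, rep_smul, rep_smul]
      rfl
    have h5 : q (rep (g * h)) = q (rep g * rep h) := by
      rcases h4 with h4 | h4
      · rw [h4]
      · rw [h4, h2 _ (inGam_mul (rep_mem _) (rep_mem _))]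
    simp only [h5]
    exact h1 _ _ (rep_mem _) (rep_mem _)
  · intro v
    have h4 : rep (par v) = Tr (v.toAdd.1 * ⟨1, 1⟩ + v.toAdd.2 * ⟨-2, 2⟩) ∨
        rep (par v) = -Tr (v.toAdd.1 * ⟨1, 1⟩ + v.toAdd.2 * ⟨-2, 2⟩) := by
      refine eq_or_neg (rep_mem _) (inGam_Tr _ _) fun q => ?_
      rw [rep_smul, Tr_smul]
      change translate ((v.toAdd.1 : ℂ) * mu + (v.toAdd.2 : ℂ) * lam) q = _
      congr 1
      rw [map_add, map_mul, map_mul]
      simp only [GaussianInt.toComplex_def, Zsqrtd.re_intCast, Zsqrtd.im_intCast, mu, lam]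
      push_cast
      ring
    have h5 : q (rep (par v)) = q (Tr (v.toAdd.1 * ⟨1, 1⟩ + v.toAdd.2 * ⟨-2, 2⟩)) := by
      rcases h4 with h4 | h4
      · rw [h4]
      · rw [h4, h2 _ (inGam_Tr _ _)]
    change q (rep (par v)) = _
    rw [h5]
    exact h3 v.toAdd.1 v.toAdd.2

theorem exists_twist : ∃ (t q : PG → ℤ), (∀ v g, t (par v * g) = v.toAdd.2 + t g) ∧
    ∀ s g, |t (s * g) - t g - q s| ≤ 9 := by
  obtain ⟨q, h1, h2⟩ := exists_quasi_PG
  obtain ⟨σ, hσ⟩ := BlockE.exists_retraction par par_injective
  refine ⟨fun g => (σ g).toAdd.2 + q ((par (σ g))⁻¹ * g), q, ?_, ?_⟩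
  · intro v g
    simp only
    rw [hσ]
    have h3 : (par (v * σ g))⁻¹ * (par v * g) = (par (σ g))⁻¹ * g := by
      rw [map_mul]; group
    rw [h3, toAdd_mul, Prod.snd_add]
    ring
  · have h4 : ∀ g, |q g - ((σ g).toAdd.2 + q ((par (σ g))⁻¹ * g))| ≤ 3 := by
      intro g
      have := h1 (par (σ g)) ((par (σ g))⁻¹ * g)
      rw [mul_inv_cancel_left, h2] at this
      rw [← sub_sub]
      exact this
    intro s g
    have a1 := abs_le.1 (h4 (s * g))
    have a2 := abs_le.1 (h4 g)
    have a3 := abs_le.1 (h1 s g)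
    simp only
    rw [abs_le]
    constructor <;> omega

/-! ### The quasi-isometry -/

/-- The reparametrisation `(a, b, n) ↦ (a, b, n + b)`. -/
def tauE : Z3 ≃+ Z3 where
  toFun v := (v.1, v.2.1, v.2.2 + v.2.1)
  invFun v := (v.1, v.2.1, v.2.2 - v.2.1)
  left_inv v := by ext1 <;> simp
  right_inv v := by ext1 <;> simp
  map_add' v w := by
    ext1
    · simp
    · simp only [Prod.snd_add, Prod.fst_add, Prod.mk_add_mk]
      congr 1
      ring

/-- The reparametrisation, multiplicatively. -/
def tauM : Multiplicative Z3 ≃* Multiplicative Z3 := AddEquiv.toMultiplicative tauE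

/-- The twist of a vertex group. -/
def twist (t : PG → ℤ) : VG ≃ VG where
  toFun x := (x.1, x.2 * Multiplicative.ofAdd (t x.1))
  invFun x := (x.1, x.2 * (Multiplicative.ofAdd (t x.1))⁻¹)
  left_inv x := by ext1 <;> simp
  right_inv x := by ext1 <;> simp

instance : Group.FG PG := by
  have h1 : Group.FG Gam := fg_Gam
  let f : Gam →* PG :=
    { toFun := fun g => ⟨MulAction.toPermHom SL2C H3 (toC g.1), mem_PG.2 ⟨g.1, g.2, fun _ => rfl⟩⟩
      map_one' := by
        apply Subtype.ext
        change MulAction.toPermHom SL2C H3 (toC 1) = 1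
        rw [map_one, map_one]
      map_mul' := fun g h => by
        apply Subtype.ext
        change MulAction.toPermHom SL2C H3 (toC (g.1 * h.1)) = _
        rw [map_mul, map_mul]
        rfl }
  refine Group.fg_of_surjective (f := f) ?_
  intro σ
  obtain ⟨γ, hγ, h⟩ := mem_PG.1 σ.2
  exact ⟨⟨γ, hγ⟩, Subtype.ext (Equiv.ext fun q => (h q).symm)⟩

instance : Group.FG VG := by
  infer_instance

theorem quasiIsometric_flip : QuasiIsometric (PushoutI (flip 0).phi) (PushoutI (flip 1).phi) := by
  obtain ⟨t, q, ht, htq⟩ := exists_twist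
  have main : QuasiIsometric (PushoutI (flip 0).phi)
      (PushoutI (rphi (flip 1).phi tauM)) := by
    refine BlockE.pushout_quasiIsometric (ι := Bool) (H := Multiplicative Z3) (G := fun _ => VG)
      (fun _ => inferInstance) _ _ (phi_injective _) ?_ (fun b => cond b (twist t) (Equiv.refl _))
      ?_ ?_ ?_
    · intro i
      exact (phi_injective (flip 1) i).comp tauM.injective
    · rintro (_ | _) h x
      · change (flip 0).phi false h * x = (flip 1).phi false (tauM h) * x
        congr 1
        change per (Multiplicative.ofAdd (flipE 0 h.toAdd)) =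
          per (Multiplicative.ofAdd (flipE 1 (tauE h.toAdd)))
        congr 2
        rw [flipE_apply, flipE_apply]
        simp [tauE]
      · change twist t (per h * x) = per (tauM h) * twist t x
        rw [per_eq, per_eq]
        simp only [twist, Equiv.coe_fn_mk, Prod.fst_mul, Prod.snd_mul, Prod.mk_mul_mk]
        rw [ht]
        ext1
        · rfl
        · simp only
          apply Multiplicative.toAdd.injective
          simp only [toAdd_mul, toAdd_ofAdd]
          change h.toAdd.2.2 + x.2.toAdd + (h.toAdd.2.1 + t x.1) =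
            h.toAdd.2.2 + h.toAdd.2.1 + (x.2.toAdd + t x.1)
          ring
    · rintro (_ | _) s
      · refine (Set.finite_singleton s).subset ?_
        rintro y ⟨x, rfl⟩
        change s * x * x⁻¹ = s
        group
      · refine ((Set.finite_Icc (q s.1 - 9) (q s.1 + 9)).image
          (fun k : ℤ => ((s.1, s.2 * Multiplicative.ofAdd k) : VG))).subset ?_
        rintro y ⟨x, rfl⟩
        refine ⟨t (s.1 * x.1) - t x.1, ?_, ?_⟩
        · have := abs_le.1 (htq s.1 x.1)
          exact ⟨by linarith [this.1], by linarith [this.2]⟩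
        · change _ = twist t (s * x) * (twist t x)⁻¹
          simp only [twist, Equiv.coe_fn_mk, Prod.fst_mul, Prod.snd_mul, Prod.mk_mul_mk, Prod.inv_mk]
          ext1
          · simp
          · simp only
            apply Multiplicative.toAdd.injective
            simp only [toAdd_mul, toAdd_ofAdd, toAdd_inv]
            ring
    · rintro (_ | _) s
      · refine (Set.finite_singleton s).subset ?_
        rintro y ⟨x, rfl⟩
        change s * x * x⁻¹ = s
        group
      · refine ((Set.finite_Icc (q s.1 - 9) (q s.1 + 9)).image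
          (fun k : ℤ => ((s.1, s.2 * (Multiplicative.ofAdd k)⁻¹) : VG))).subset ?_
        rintro y ⟨x, rfl⟩
        refine ⟨t (s.1 * x.1) - t x.1, ?_, ?_⟩
        · have := abs_le.1 (htq s.1 x.1)
          exact ⟨by linarith [this.1], by linarith [this.2]⟩
        · change _ = (twist t).symm (s * x) * ((twist t).symm x)⁻¹
          simp only [twist, Equiv.coe_fn_symm_mk, Prod.fst_mul, Prod.snd_mul, Prod.mk_mul_mk,
            Prod.inv_mk]
          ext1
          · simp
          · simp only
            apply Multiplicative.toAdd.injective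
            simp only [toAdd_mul, toAdd_ofAdd, toAdd_inv]
            ring
  exact main.of_equiv (MulEquiv.refl _) (reparam (flip 1).phi tauM)

end Model

end Pool.Agent.Work.MP_f0c219_gt
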