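import Pool.Agent.Work.MP_f0c219_gt.FlipMetric
import Pool.Agent.Work.MP_f0c219_gt_h18.PieceMetric
import Pool.Agent.Work.MP_f0c219_gt.QI
import Pool.Agent.Work.MP_f0c219_gt.NotCat0
import Pool.Agent.Work.MP_f0c219_gt_h72.Topo5

/-!
# Assembly
-/

open Set Topology Filter

namespace Pool.Agent.Work.MP_f0c219_gt.Model

theorem final_of_core (hgood : PieceMetric.GoodExists) (hcore : PieceMetric.CoreMetric) :
    ∃ M₁ M₂ : Gluing, M₁.Irreducible ∧ M₂.Irreducible ∧
    PathConnectedSpace M₁.Space ∧ PathConnectedSpace M₂.Space ∧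
    (∀ (p : M₁.Space) (q : M₂.Space),
      QuasiIsometric (FundamentalGroup M₁.Space p) (FundamentalGroup M₂.Space q)) ∧
    AdmitsLocallyCAT0 M₁.Space ∧ ¬ AdmitsLocallyCAT0 M₂.Space := by
  have hpiece := PieceMetric.exists_pieceMetric hgood (PieceMetric.exists_nbarMetric hcore)
  have hM₁ : AdmitsLocallyCAT0 (flip 0).toGluing.Space :=
    admits_flip hpiece PieceMetric.bd_add_ev (Gluing.compact _) (pathConnectedSpace_space _)
  have := Gluing.compact (flip 1).toGluing
  exact ⟨(flip 0).toGluing, (flip 1).toGluing, irreducible_flip 0, irreducible_flip 1,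
    pathConnectedSpace_space _, pathConnectedSpace_space _,
    fun p q => QuasiIsometric.transfer quasiIsometric_flip ((pi1 (flip 0)).2 p)
      ((pi1 (flip 1)).2 q), hM₁, NotCat0.not_admits (pi1 (flip 1))⟩

end Pool.Agent.Work.MP_f0c219_gt.Model
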