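import Pool.Agent.Work.MP_f0c219_gt.Model

/-!
# The gluings `flip m`

`L_m μ = μ`, `L_m λ = f - m λ`, `L_m f = λ` where `f` is the fibre. For `m = 0` this is an isometry
of the flat torus (fibre length `|λ|`), the flip manifold.
-/

open Set Topology
open scoped ComplexConjugate

namespace Pool.Agent.Work.MP_f0c219_gt.Model

/-- The `μ`-coordinate (of `z = (x μ + y λ) / 16`). -/
def cx (z : ℂ) : ℝ := 8 * (z.re + z.im)

/-- The `λ`-coordinate (of `z = (x μ + y λ) / 16`). -/
def cy (z : ℂ) : ℝ := 4 * (z.im - z.re)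

theorem mu_re : mu.re = 1 := by simp [mu]
theorem mu_im : mu.im = 1 := by simp [mu]
theorem lam_re : lam.re = -2 := by simp [lam]
theorem lam_im : lam.im = 2 := by simp [lam]

/-- The point with coordinates `x`, `y`. -/
noncomputable def cz (x y : ℝ) : ℂ := ((x : ℂ) * mu + (y : ℂ) * lam) / 16

theorem cz_re (x y : ℝ) : (cz x y).re = (x - 2 * y) / 16 := by
  unfold cz
  have h : (((x : ℂ) * mu + (y : ℂ) * lam) / 16) = (1 / 16 : ℝ) * ((x : ℂ) * mu + (y : ℂ) * lam) := by
    push_cast; ring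
  rw [h, Complex.re_ofReal_mul]
  simp [mu_re, lam_re]
  ring

theorem cz_im (x y : ℝ) : (cz x y).im = (x + 2 * y) / 16 := by
  unfold cz
  have h : (((x : ℂ) * mu + (y : ℂ) * lam) / 16) = (1 / 16 : ℝ) * ((x : ℂ) * mu + (y : ℂ) * lam) := by
    push_cast; ring
  rw [h, Complex.im_ofReal_mul]
  simp [mu_im, lam_im]
  ring

theorem cx_cz (x y : ℝ) : cx (cz x y) = x := by
  unfold cx; rw [cz_re, cz_im]; ring

theorem cy_cz (x y : ℝ) : cy (cz x y) = y := by
  unfold cy; rw [cz_re, cz_im]; ring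

theorem cz_cx_cy (z : ℂ) : cz (cx z) (cy z) = z := by
  apply Complex.ext
  · rw [cz_re]; unfold cx cy; ring
  · rw [cz_im]; unfold cx cy; ring

theorem cx_add (z w : ℂ) : cx (z + w) = cx z + cx w := by simp [cx]; ring
theorem cy_add (z w : ℂ) : cy (z + w) = cy z + cy w := by simp [cy]; ring
theorem cx_smul (c : ℝ) (z : ℂ) : cx (c • z) = c * cx z := by simp [cx]; ring
theorem cy_smul (c : ℝ) (z : ℂ) : cy (c • z) = c * cy z := by simp [cy]; ring

theorem cz_add (x y x' y' : ℝ) : cz (x + x') (y + y') = cz x y + cz x' y' := by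
  unfold cz; push_cast; ring

theorem cz_smul (c x y : ℝ) : cz (c * x) (c * y) = c • cz x y := by
  unfold cz; rw [Complex.real_smul]; push_cast; ring

/-- The real linear map `L_m`. -/
noncomputable def flipL (m : ℤ) : (ℂ × ℝ) ≃ₗ[ℝ] (ℂ × ℝ) where
  toFun p := (cz (cx p.1) (p.2 - m * cy p.1), cy p.1)
  invFun p := (cz (cx p.1) p.2, cy p.1 + m * p.2)
  map_add' p q := by
    ext1
    · simp only [Prod.fst_add, Prod.snd_add, cx_add, cy_add]
      rw [← cz_add]
      congr 1
      ring
    · simp only [Prod.fst_add, Prod.snd_add, cy_add]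
  map_smul' c p := by
    ext1
    · simp only [Prod.smul_fst, Prod.smul_snd, cx_smul, cy_smul, RingHom.id_apply, smul_eq_mul]
      rw [← cz_smul]
      congr 1
      ring
    · simp only [Prod.smul_fst, Prod.smul_snd, cy_smul, RingHom.id_apply, smul_eq_mul]
  left_inv p := by
    ext1
    · simp only [cx_cz, cz_cx_cy]
    · simp only [cy_cz]; ring
  right_inv p := by
    ext1
    · simp only [cx_cz, cy_cz]
      rw [add_sub_cancel_right, cz_cx_cy]
    · simp only [cy_cz]

theorem flipL_apply (m : ℤ) (p : ℂ × ℝ) :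
    flipL m p = (cz (cx p.1) (p.2 - m * cy p.1), cy p.1) := rfl

/-- The integral matrix of `L_m`. -/
def flipE (m : ℤ) : Z3 ≃+ Z3 where
  toFun v := (v.1, v.2.2 - m * v.2.1, v.2.1)
  invFun v := (v.1, v.2.2, v.2.1 + m * v.2.2)
  left_inv v := by ext1 <;> simp
  right_inv v := by ext1 <;> simp
  map_add' v w := by
    ext1
    · simp
    · simp only [Prod.fst_add, Prod.snd_add, Prod.mk_add_mk]
      congr 1
      ring

theorem flipE_apply (m : ℤ) (v : Z3) : flipE m v = (v.1, v.2.2 - m * v.2.1, v.2.1) := rfl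

theorem ev_eq (v : Z3) : ev v = (cz v.1 v.2.1, (v.2.2 : ℝ)) := by
  rw [ev_apply]
  simp [cz]

/-- The gluings `flip m`; `flip 0` is the flip manifold. -/
noncomputable def flip (m : ℤ) : LatIso where
  L := flipL m
  E := flipE m
  comm v := by
    rw [ev_eq, ev_eq, flipL_apply, flipE_apply]
    simp only [cx_cz, cy_cz]
    push_cast
    rfl

theorem irreducible_flip (m : ℤ) : (flip m).toGluing.Irreducible := by
  intro n h
  change (flipL m (0, (n : ℝ))).1 = 0 at h
  rw [flipL_apply] at h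
  simp only [cx, cy, Complex.zero_re, Complex.zero_im] at h
  have h1 := congrArg Complex.re h
  rw [cz_re] at h1
  simp at h1
  exact h1

/-- `L_0` preserves the flat metric of the boundary torus. -/
theorem flipL_norm (p : ℂ × ℝ) :
    ‖(flipL 0 p).1‖ ^ 2 + (flipL 0 p).2 ^ 2 / 32 = ‖p.1‖ ^ 2 + p.2 ^ 2 / 32 := by
  rw [flipL_apply]
  simp only [← Complex.normSq_eq_norm_sq, Complex.normSq_apply, cz_re, cz_im]
  unfold cx cy
  push_cast
  ring

end Pool.Agent.Work.MP_f0c219_gt.Model
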