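import Pool.Agent.Work.MP_f0c219_gt.WallGlue
import Pool.Agent.Work.MP_f0c219_gt_h67.Length
import Pool.Agent.Work.MP_f0c219_gt_h72.Topo1

/-!
# The flip manifold admits a locally CAT(0) metric
-/

open Set Topology Filter
open scoped ComplexConjugate

namespace Pool.Agent.Work.MP_f0c219_gt.Model

open Borromean

theorem locallyCAT0_of_isometryEquiv {X Y : Type*} [MetricSpace X] [MetricSpace Y] (e : X ≃ₜ Y)
    (he : Isometry e) (hY : LocallyCAT0 Y) : LocallyCAT0 X := by
  intro x
  obtain ⟨U, hU, hcat⟩ := hY (e x)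
  refine ⟨e ⁻¹' U, e.continuous.continuousAt hU, ?_⟩
  have h1 : e ⁻¹' U = e.symm '' U := (e.symm.image_eq_preimage_symm U).symm
  rw [h1]
  refine hcat.image e.symm fun a _ b _ => ?_
  rw [← he.dist_eq, e.apply_symm_apply, e.apply_symm_apply]

/-- Transfer of a locally CAT(0) metric through a continuous bijection. -/
theorem admits_of_bijective {X M : Type} [TopologicalSpace X] [CompactSpace X] [ConnectedSpace X]
    [MetricSpace M] (hM : LocallyCAT0 M) (F : X → M) (hF : Continuous F)
    (hb : Function.Bijective F) : AdmitsLocallyCAT0 X := by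
  let e : X ≃ₜ M := Continuous.homeoOfEquivCompactToT2 (f := Equiv.ofBijective F hb) hF
  let m0 : MetricSpace X := MetricSpace.induced F hb.1 inferInstance
  have hm0 : m0.toUniformSpace.toTopologicalSpace = (inferInstance : TopologicalSpace X) :=
    e.isInducing.eq_induced.symm
  refine Length.admitsLocallyCAT0_of_locallyCAT0 m0 hm0 ?_
  intro x
  obtain ⟨U, hU, hcat⟩ := hM (F x)
  refine ⟨F ⁻¹' U, ?_, ?_⟩
  · rw [hm0]
    exact hF.continuousAt hU
  · have h1 : IsCAT0 ↥U := hcat
    let e' : ↥U ≃ ↥(F ⁻¹' U) :=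
      { toFun := fun u => ⟨e.symm u.1, by
          change F (e.symm u.1) ∈ U
          have : F (e.symm u.1) = u.1 := e.apply_symm_apply u.1
          rw [this]; exact u.2⟩
        invFun := fun x => ⟨F x.1, x.2⟩
        left_inv := fun u => Subtype.ext (e.apply_symm_apply u.1)
        right_inv := fun x => Subtype.ext (e.symm_apply_apply x.1) }
    refine @isCAT0_of_equiv ↥U ↥(F ⁻¹' U) _ (@Subtype.metricSpace _ _ m0) e' ?_ h1
    refine @Isometry.of_dist_eq _ _ _ (@Subtype.metricSpace _ _ m0).toPseudoMetricSpace _ ?_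
    intro u u'
    change dist (F (e.symm u.1)) (F (e.symm u'.1)) = dist u.1 u'.1
    have h2 : ∀ y : M, F (e.symm y) = y := fun y => e.apply_symm_apply y
    rw [h2, h2]

theorem admits_flip (hpiece : ∃ (m : MetricSpace Bor.Piece) (ρ : ℝ), 0 < ρ ∧
      (∀ v w, m.dist v w ≤ ρ) ∧
      (∀ v, Tendsto (fun v' => m.dist v v') (𝓝 v) (𝓝 0)) ∧
      (∀ (v : Bor.Piece) (r : ℝ), r ≤ ρ / 2 →
        @IsCAT0 (@Metric.closedBall _ m.toPseudoMetricSpace v r) (@Subtype.metricSpace _ _ m)) ∧
      (∀ p p' : ℂ × ℝ, fl (p - p') ≤ ρ → m.dist (bd p) (bd p') = fl (p - p')) ∧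
      ∀ p p' : ℂ × ℝ, m.dist (bd p) (bd p') < ρ → ∃ v : Z3,
        fl (p - (p' + ev v)) = m.dist (bd p) (bd p'))
    (hper : ∀ (p : ℂ × ℝ) (v : Z3), bd (p + ev v) = bd p)
    (hcompact : CompactSpace (flip 0).toGluing.Space)
    (hconn : PathConnectedSpace (flip 0).toGluing.Space) :
    AdmitsLocallyCAT0 (flip 0).toGluing.Space := by
  obtain ⟨m, ρ, hρ, hle, hcont, hcat, hloc, hlift⟩ := hpiece
  -- the piece with its metric
  let P : Type := Bor.Piece
  let _ : MetricSpace P := m
  let b : ℂ × ℝ → P := bd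
  have hW : Wall ρ b :=
    { pos := hρ
      le := hle
      cat := hcat
      loc := hloc
      lift := hlift
      per := hper }
  obtain ⟨M, hM, iV, iW, h1, h2, h3, h4, h5⟩ := exists_flip_glue hW
  have hLC := locallyCAT0_of_glue hW h1 h2 h3 h4 h5
  let iV' : Bor.Piece → M := iV
  let iW' : Bor.Piece → M := iW
  have hcV : Continuous iV' := by
    rw [continuous_iff_continuousAt]
    intro v
    rw [ContinuousAt, tendsto_iff_dist_tendsto_zero]
    refine (hcont v).congr fun v' => ?_
    exact (h1.dist_eq v v').symm.trans (dist_comm _ _)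
  have hcW : Continuous iW' := by
    rw [continuous_iff_continuousAt]
    intro v
    rw [ContinuousAt, tendsto_iff_dist_tendsto_zero]
    refine (hcont v).congr fun v' => ?_
    exact (h2.dist_eq v v').symm.trans (dist_comm _ _)
  have hkey : ∀ v w : Bor.Piece, iV' v = iW' w ↔ ∃ p, v = bd p ∧ w = bd (flipL 0 p) := by
    intro v w
    constructor
    · intro hvw
      obtain ⟨p, hp⟩ := h5 v w
      have hvw' : iV v = iW w := hvw
      rw [hvw', dist_self] at hp
      have n1 := @dist_nonneg P _ v (b p)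
      have n2 := @dist_nonneg P _ (b (flipL 0 p)) w
      refine ⟨p, ?_, ?_⟩
      · exact dist_eq_zero.1 (show @dist P _ v (b p) = 0 by linarith)
      · exact (dist_eq_zero.1 (show @dist P _ (b (flipL 0 p)) w = 0 by linarith)).symm
    · rintro ⟨p, rfl, rfl⟩
      exact h4 p
  let F : (flip 0).toGluing.Space → M := Quot.lift (Sum.elim iV' iW') (by
    rintro _ _ ⟨p, v, w, hv, hw, rfl, rfl⟩
    have hv' : v = bd p := isBoundaryPoint_iff.1 hv
    have hw' : w = bd (flipL 0 p) := isBoundaryPoint_iff.1 hw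
    exact (hkey v w).2 ⟨p, hv', hw'⟩)
  have hFc : Continuous F := by
    refine continuous_quot_lift _ ?_
    exact continuous_sum_dom.2 ⟨hcV, hcW⟩
  have hglue : ∀ v w : Bor.Piece, iV' v = iW' w →
      (Quot.mk _ (Sum.inl v) : (flip 0).toGluing.Space) = Quot.mk _ (Sum.inr w) := by
    intro v w hvw
    obtain ⟨p, hv, hw⟩ := (hkey v w).1 hvw
    refine Quot.sound ⟨p, v, w, ?_, ?_, rfl, rfl⟩
    · exact isBoundaryPoint_iff.2 hv
    · exact isBoundaryPoint_iff.2 hw
  refine admits_of_bijective hLC F hFc ⟨?_, ?_⟩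
  · rintro ⟨v | v⟩ ⟨w | w⟩ hvw
    · have : iV v = iV w := hvw
      rw [h1.injective this]
    · exact hglue v w hvw
    · exact (hglue w v hvw.symm).symm
    · have : iW v = iW w := hvw
      rw [h2.injective this]
  · intro y
    have hy : y ∈ range iV ∪ range iW := by rw [h3]; trivial
    rcases hy with ⟨x, rfl⟩ | ⟨x, rfl⟩
    · exact ⟨Quot.mk _ (Sum.inl x), rfl⟩
    · exact ⟨Quot.mk _ (Sum.inr x), rfl⟩

end Pool.Agent.Work.MP_f0c219_gt.Model
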