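import Pool.Agent.Work.MP_f0c219_gt.Defs

/-!
# The Borromean rings group in `SL(2, ℤ[i])` (with `-1` adjoined)
-/

open Set Topology
open scoped ComplexConjugate

namespace Pool.Agent.Work.MP_f0c219_gt

/-- `SL(2, ℤ[i])` -/
abbrev SL2Gi : Type := Matrix.SpecialLinearGroup (Fin 2) GaussianInt

/-- The embedding `SL(2, ℤ[i]) → SL(2, ℂ)`. -/
noncomputable def toC : SL2Gi →* SL2C := Matrix.SpecialLinearGroup.map GaussianInt.toComplex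

/-- The congruence conditions (on `b = (1+i) β`, `c = (1+i) γ`) defining the group. -/
def InGam (g : SL2Gi) : Prop :=
  ∃ β γ : GaussianInt, g 0 1 = ⟨1, 1⟩ * β ∧ g 1 0 = ⟨1, 1⟩ * γ ∧
    (((g 0 0).re % 2 = 1 ∧ (g 0 0).im % 2 = 0 ∧ β.im % 2 = 0 ∧ γ.im % 2 = 0) ∨
     ((g 0 0).re % 2 = 0 ∧ (g 0 0).im % 2 = 1 ∧ β.re % 2 = 1 ∧ γ.re % 2 = 1))

end Pool.Agent.Work.MP_f0c219_gt
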