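import Mathlib

/-!
# The fundamental group of a union of two open sets is generated by those of the two sets
-/

open Set Topology unitInterval

namespace Pool.Agent.Work.MP_f0c219_gt

variable {M : Type*} [TopologicalSpace M]

theorem fundamentalGroup_eq_top {U V : Set M} (hU : IsOpen U) (hV : IsOpen V)
    (hUV : U ∪ V = univ) {m : M} (hmU : m ∈ U) (hmV : m ∈ V) (pU : IsPathConnected U)
    (pV : IsPathConnected V) (pUV : IsPathConnected (U ∩ V))
    (K : Subgroup (FundamentalGroup M m))
    (hKU : ∀ γ : Path m m, range γ ⊆ U → FundamentalGroup.fromPath (.mk γ) ∈ K)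
    (hKV : ∀ γ : Path m m, range γ ⊆ V → FundamentalGroup.fromPath (.mk γ) ∈ K) : K = ⊤ := by
  -- good paths from the base point
  have good : ∀ x : M, ∃ δ : Path m x, (x ∈ U → range δ ⊆ U) ∧ (x ∈ V → range δ ⊆ V) := by
    intro x
    by_cases hxU : x ∈ U
    · by_cases hxV : x ∈ V
      · obtain ⟨δ, hδ⟩ := pUV.joinedIn m ⟨hmU, hmV⟩ x ⟨hxU, hxV⟩
        exact ⟨δ, fun _ => by rintro _ ⟨t, rfl⟩; exact (hδ t).1,
          fun _ => by rintro _ ⟨t, rfl⟩; exact (hδ t).2⟩
      · obtain ⟨δ, hδ⟩ := pU.joinedIn m hmU x hxU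
        exact ⟨δ, fun _ => by rintro _ ⟨t, rfl⟩; exact hδ t, fun h => absurd h hxV⟩
    · have hxV : x ∈ V := by
        have : x ∈ U ∪ V := hUV ▸ mem_univ x
        exact this.resolve_left hxU
      obtain ⟨δ, hδ⟩ := pV.joinedIn m hmV x hxV
      exact ⟨δ, fun h => absurd h hxU, fun _ => by rintro _ ⟨t, rfl⟩; exact hδ t⟩
  choose δ hδU hδV using good
  rw [eq_top_iff]
  intro g _
  obtain ⟨γ, rfl⟩ := Path.Homotopic.Quotient.mk_surjective g
  -- the initial segments
  set c : ∀ s : I, Path m (γ s) := fun s => (γ.subpath 0 s).cast γ.source.symm rfl with hc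
  have hmain : ∀ s t : I, s ≤ t → (γ '' Icc s t ⊆ U ∨ γ '' Icc s t ⊆ V) →
      FundamentalGroup.fromPath (.mk ((c s).trans (δ (γ s)).symm)) ∈ K →
      FundamentalGroup.fromPath (.mk ((c t).trans (δ (γ t)).symm)) ∈ K := by
    intro s t hst hsub hs
    have hrange : range (γ.subpath s t) = γ '' Icc s t := Path.range_subpath_of_le γ s t hst
    have hloop : FundamentalGroup.fromPath
        (.mk (((δ (γ s)).trans (γ.subpath s t)).trans (δ (γ t)).symm)) ∈ K := by
      rcases hsub with hsub | hsub
      · apply hKU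
        rw [Path.trans_range, Path.trans_range, Path.symm_range, hrange]
        exact union_subset (union_subset (hδU _ (hsub ⟨s, ⟨le_rfl, hst⟩, rfl⟩)) hsub)
          (hδU _ (hsub ⟨t, ⟨hst, le_rfl⟩, rfl⟩))
      · apply hKV
        rw [Path.trans_range, Path.trans_range, Path.symm_range, hrange]
        exact union_subset (union_subset (hδV _ (hsub ⟨s, ⟨le_rfl, hst⟩, rfl⟩)) hsub)
          (hδV _ (hsub ⟨t, ⟨hst, le_rfl⟩, rfl⟩))
    have hct : (Path.Homotopic.Quotient.mk (c t)) =
        (Path.Homotopic.Quotient.mk (c s)).trans (.mk (γ.subpath s t)) := by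
      rw [← Path.Homotopic.Quotient.mk_trans]
      apply Quotient.sound
      have h1 : Path.Homotopic ((γ.subpath 0 s).trans (γ.subpath s t)) (γ.subpath 0 t) :=
        ⟨Path.Homotopy.subpathTransSubpath γ 0 s t⟩
      have h2 := h1.symm.pathCast γ.source.symm rfl
      exact h2
    have hprod : FundamentalGroup.fromPath (.mk ((c t).trans (δ (γ t)).symm)) =
        FundamentalGroup.fromPath
          (.mk (((δ (γ s)).trans (γ.subpath s t)).trans (δ (γ t)).symm)) *
        FundamentalGroup.fromPath (.mk ((c s).trans (δ (γ s)).symm)) := by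
      rw [FundamentalGroup.mul_def]
      change Path.Homotopic.Quotient.mk ((c t).trans (δ (γ t)).symm) =
        (Path.Homotopic.Quotient.mk ((c s).trans (δ (γ s)).symm)).trans
          (Path.Homotopic.Quotient.mk (((δ (γ s)).trans (γ.subpath s t)).trans (δ (γ t)).symm))
      simp only [Path.Homotopic.Quotient.mk_trans, Path.Homotopic.Quotient.mk_symm]
      rw [hct]
      simp only [Path.Homotopic.Quotient.trans_assoc]
      congr 1
      rw [← Path.Homotopic.Quotient.trans_assoc (Path.Homotopic.Quotient.symm _)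
        (Path.Homotopic.Quotient.mk (δ (γ s))), Path.Homotopic.Quotient.symm_trans,
        Path.Homotopic.Quotient.refl_trans]
    rw [hprod]
    exact K.mul_mem hloop hs
  obtain ⟨t, ht0, htm, ⟨n, hn⟩, htc⟩ := exists_monotone_Icc_subset_open_cover_unitInterval
    (ι := Bool) (c := fun b => cond b (γ ⁻¹' U) (γ ⁻¹' V))
    (by intro b; cases b; exacts [hV.preimage γ.continuous, hU.preimage γ.continuous])
    (by
      intro s _
      have : γ s ∈ U ∪ V := hUV ▸ mem_univ _
      rcases this with h | h
      · exact mem_iUnion.2 ⟨true, h⟩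
      · exact mem_iUnion.2 ⟨false, h⟩)
  have hall : ∀ k : ℕ, FundamentalGroup.fromPath (.mk ((c (t k)).trans (δ (γ (t k))).symm)) ∈ K := by
    intro k
    induction k with
    | zero =>
      apply hKU
      have h0 : γ (t 0) = m := by rw [ht0, γ.source]
      have hr : range (c (t 0)) = {m} := by
        have : range (c (t 0)) = range (γ.subpath 0 (t 0)) := rfl
        rw [this, Path.range_subpath, ht0, uIcc_self, image_singleton, γ.source]
      rw [Path.trans_range, Path.symm_range, hr]
      refine union_subset (by simpa using hmU) (hδU _ (by rw [h0]; exact hmU))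
    | succ k ih =>
      refine hmain (t k) (t (k + 1)) (htm (Nat.le_succ k)) ?_ ih
      obtain ⟨b, hb⟩ := htc k
      cases b
      · exact Or.inr (image_subset_iff.2 hb)
      · exact Or.inl (image_subset_iff.2 hb)
  have h1 := hall n
  rw [hn n le_rfl] at h1
  -- the last loop
  have h1m : γ 1 = m := γ.target
  have hlast : FundamentalGroup.fromPath (.mk ((δ (γ 1)).cast rfl h1m.symm)) ∈ K := by
    apply hKU
    have : range ((δ (γ 1)).cast rfl h1m.symm) = range (δ (γ 1)) := rfl
    rw [this]
    exact hδU _ (by rw [h1m]; exact hmU)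
  have hfin : FundamentalGroup.fromPath (.mk γ) =
      FundamentalGroup.fromPath (.mk ((δ (γ 1)).cast rfl h1m.symm)) *
      FundamentalGroup.fromPath (.mk ((c 1).trans (δ (γ 1)).symm)) := by
    rw [FundamentalGroup.mul_def]
    change Path.Homotopic.Quotient.mk γ =
      (Path.Homotopic.Quotient.mk ((c 1).trans (δ (γ 1)).symm)).trans
        (Path.Homotopic.Quotient.mk ((δ (γ 1)).cast rfl h1m.symm))
    rw [Path.Homotopic.Quotient.mk_trans, Path.Homotopic.Quotient.mk_symm,
      Path.Homotopic.Quotient.trans_assoc]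
    have h2 : (Path.Homotopic.Quotient.mk (δ (γ 1))).symm.trans
        (Path.Homotopic.Quotient.mk ((δ (γ 1)).cast rfl h1m.symm)) =
        (Path.Homotopic.Quotient.refl (γ 1)).cast rfl h1m.symm := by
      rw [← Path.Homotopic.Quotient.symm_trans (Path.Homotopic.Quotient.mk (δ (γ 1)))]
      rfl
    rw [h2]
    have h3 : (Path.Homotopic.Quotient.mk (c 1)).trans
        ((Path.Homotopic.Quotient.refl (γ 1)).cast rfl h1m.symm) =
        (Path.Homotopic.Quotient.mk (c 1)).cast rfl h1m.symm := by
      have h4 : (Path.Homotopic.Quotient.mk (c 1)).trans (Path.Homotopic.Quotient.refl (γ 1)) =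
        Path.Homotopic.Quotient.mk (c 1) := Path.Homotopic.Quotient.trans_refl _
      rw [← Path.Homotopic.Quotient.mk_cast]
      conv_rhs => rw [Path.Homotopic.Quotient.mk_cast, ← h4]
      rfl
    rw [h3, ← Path.Homotopic.Quotient.mk_cast]
    congr 1
    ext s
    simp [hc, Path.subpath]
  change FundamentalGroup.fromPath (.mk γ) ∈ K
  rw [hfin]
  exact K.mul_mem hlast h1

end Pool.Agent.Work.MP_f0c219_gt
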