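import Pool.Agent.Work.MP_f0c219_gt.Cat0
import Pool.Agent.Work.MP_f0c219_gt_h82.Reshetnyak

/-!
# Gluing two metric spaces along a compact wall
-/

open Set Topology Filter

namespace Pool.Agent.Work.MP_f0c219_gt

theorem isCAT0_of_equiv {X Y : Type*} [MetricSpace X] [MetricSpace Y] (e : X ≃ Y)
    (he : Isometry e) (hX : IsCAT0 X) : IsCAT0 Y := by
  have he' : ∀ x y, dist (e.symm x) (e.symm y) = dist x y := by
    intro x y
    rw [← he.dist_eq, e.apply_symm_apply, e.apply_symm_apply]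
  refine ⟨?_, ?_⟩
  · intro x y
    obtain ⟨γ, h0, h1, h⟩ := hX.1 (e.symm x) (e.symm y)
    refine ⟨fun t => e (γ t), ?_, ?_, ?_⟩
    · simp only [h0, e.apply_symm_apply]
    · simp only [h1, e.apply_symm_apply]
    · intro s hs t ht
      rw [he.dist_eq, h s hs t ht, he']
  · rintro x y p γ ⟨h0, h1, h⟩ t ht
    have h2 := hX.2 (e.symm x) (e.symm y) (e.symm p) (fun t => e.symm (γ t))
      ⟨by simp only [h0], by simp only [h1], fun s hs t ht => by
        rw [he', he', h s hs t ht]⟩ t ht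
    rw [he', he', he', he'] at h2
    exact h2

theorem IsCAT0.image {X Y : Type*} [MetricSpace X] [MetricSpace Y] {S : Set X} (hS : IsCAT0 S)
    (f : X → Y) (hf : ∀ x ∈ S, ∀ y ∈ S, dist (f x) (f y) = dist x y) : IsCAT0 (f '' S) := by
  have hinj : InjOn f S := by
    intro x hx y hy h
    have := hf x hx y hy
    rw [h, dist_self] at this
    exact dist_eq_zero.1 this.symm
  refine isCAT0_of_equiv (Equiv.Set.imageOfInjOn f S hinj) ?_ hS
  refine Isometry.of_dist_eq ?_
  rintro ⟨x, hx⟩ ⟨y, hy⟩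
  exact hf x hx y hy

/-- The space obtained by gluing two copies of `P` along a compact space `Z`. -/
theorem exists_glue {P Z : Type} [MetricSpace P] [MetricSpace Z] [CompactSpace Z] [Nonempty Z]
    {Φ Ψ : Z → P} (hΦ : Isometry Φ) (hΨ : Isometry Ψ) :
    ∃ (M : Type) (_ : MetricSpace M) (iV iW : P → M), Isometry iV ∧ Isometry iW ∧
      range iV ∪ range iW = univ ∧ (∀ z, iV (Φ z) = iW (Ψ z)) ∧
      ∀ x y, ∃ z, dist (iV x) (iW y) = dist x (Φ z) + dist (Ψ z) y := by
  refine ⟨Metric.GlueSpace hΦ hΨ, inferInstance, Metric.toGlueL hΦ hΨ, Metric.toGlueR hΦ hΨ,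
    Metric.toGlueL_isometry _ _, Metric.toGlueR_isometry _ _, ?_, ?_, ?_⟩
  · rw [eq_univ_iff_forall]
    intro m
    obtain ⟨x | y, rfl⟩ := Quotient.exists_rep m
    · exact Or.inl ⟨x, rfl⟩
    · exact Or.inr ⟨y, rfl⟩
  · intro z
    exact congrFun (Metric.toGlue_commute hΦ hΨ) z
  · intro x y
    have h1 : dist (Metric.toGlueL hΦ hΨ x) (Metric.toGlueR hΦ hΨ y) =
        (⨅ p, dist x (Φ p) + dist y (Ψ p)) + 0 := rfl
    obtain ⟨z, -, hz⟩ := isCompact_univ.exists_isMinOn (univ_nonempty (α := Z))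
      (f := fun p => dist x (Φ p) + dist y (Ψ p))
      ((continuous_const.dist hΦ.continuous).add (continuous_const.dist hΨ.continuous)).continuousOn
    refine ⟨z, ?_⟩
    rw [h1, add_zero, dist_comm (Ψ z)]
    apply le_antisymm
    · exact ciInf_le ⟨0, forall_mem_range.2 fun p => by positivity⟩ z
    · exact le_ciInf fun p => hz (mem_univ p)

end Pool.Agent.Work.MP_f0c219_gt
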