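import Pool.Agent.Work.MP_f0c219_gt.Gen

/-!
# Gluing two spaces with group actions along open subsets

`X`, `Y` carry actions of groups `A`, `B`; open subsets of them, precisely invariant under the
images of a common group `H`, are identified by an equivariant homeomorphism. For every group `G`
with compatible homomorphisms from `A` and `B` we build the space `Tot G` (for `G = A *_H B` the
tree of spaces, for `G = 1` the quotient space `M`), with an action of `G`, and show that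
`Tot G → M` is a covering with group `G`.
-/

open Set Topology

namespace Pool.Agent.Work.MP_f0c219_gt

/-- Gluing data. -/
structure GlueSys (A B H X Y : Type*) [Group A] [Group B] [Group H] [TopologicalSpace X]
    [TopologicalSpace Y] [MulAction A X] [MulAction B Y] where
  i : H →* A
  j : H →* B
  φ : OpenPartialHomeomorph X Y
  i_smul : ∀ h, ∀ x ∈ φ.source, i h • x ∈ φ.source
  j_smul : ∀ h, ∀ x ∈ φ.source, φ (i h • x) = j h • φ x
  precA : ∀ a : A, ∀ x ∈ φ.source, a • x ∈ φ.source → ∃ h, i h = a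
  precB : ∀ b : B, ∀ y ∈ φ.target, b • y ∈ φ.target → ∃ h, j h = b

namespace GlueSys

variable {A B H X Y : Type*} [Group A] [Group B] [Group H] [TopologicalSpace X]
  [TopologicalSpace Y] [MulAction A X] [MulAction B Y] (S : GlueSys A B H X Y)

/-- Compatible homomorphisms to a group. -/
structure Lab (G : Type*) [Group G] where
  α : A →* G
  β : B →* G
  comm : ∀ h, α (S.i h) = β (S.j h)

variable {S} {G : Type*} [Group G] (l : S.Lab G)

/-- The disjoint union of copies of `X` and `Y` indexed by `G`. -/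
abbrev Pre (_l : S.Lab G) : Type _ := (Σ _ : G, X) ⊕ (Σ _ : G, Y)

/-- The identifications. -/
def Rel : Pre l → Pre l → Prop
  | .inl p, .inl p' => ∃ a : A, p'.2 = a • p.2 ∧ p.1 = p'.1 * l.α a
  | .inr q, .inr q' => ∃ b : B, q'.2 = b • q.2 ∧ q.1 = q'.1 * l.β b
  | .inl p, .inr q => ∃ (a : A) (b : B), a • p.2 ∈ S.φ.source ∧ S.φ (a • p.2) = b • q.2 ∧
      p.1 * (l.α a)⁻¹ = q.1 * (l.β b)⁻¹
  | .inr q, .inl p => ∃ (a : A) (b : B), a • p.2 ∈ S.φ.source ∧ S.φ (a • p.2) = b • q.2 ∧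
      p.1 * (l.α a)⁻¹ = q.1 * (l.β b)⁻¹

theorem rel_equivalence : Equivalence (Rel l) := by
  constructor
  · rintro (p | q)
    · exact ⟨1, by simp, by simp⟩
    · exact ⟨1, by simp, by simp⟩
  · rintro (p | q) (p' | q') h
    · obtain ⟨a, h1, h2⟩ := h
      exact ⟨a⁻¹, by rw [h1, inv_smul_smul], by rw [h2]; simp⟩
    · exact h
    · exact h
    · obtain ⟨b, h1, h2⟩ := h
      exact ⟨b⁻¹, by rw [h1, inv_smul_smul], by rw [h2]; simp⟩
  · rintro (p | q) (p' | q') (p'' | q'') h h'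
    · -- inl inl inl
      obtain ⟨a, h1, h2⟩ := h
      obtain ⟨a', h1', h2'⟩ := h'
      exact ⟨a' * a, by rw [h1', h1, mul_smul], by rw [h2, h2', map_mul, mul_assoc]⟩
    · -- inl inl inr
      obtain ⟨a, h1, h2⟩ := h
      obtain ⟨a', b, h1', h2', h3'⟩ := h'
      refine ⟨a' * a, b, ?_, ?_, ?_⟩
      · rw [mul_smul, ← h1]; exact h1'
      · rw [mul_smul, ← h1]; exact h2'
      · rw [h2, map_mul, ← h3']; group
    · -- inl inr inl
      obtain ⟨a, b, h1, h2, h3⟩ := h
      obtain ⟨a'', b'', h1', h2', h3'⟩ := h'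
      have t1 : b • q'.2 ∈ S.φ.target := h2 ▸ S.φ.map_source h1
      have t2 : b'' • q'.2 ∈ S.φ.target := h2' ▸ S.φ.map_source h1'
      obtain ⟨h, hh⟩ := S.precB (b'' * b⁻¹) (b • q'.2) t1
        (by rw [mul_smul, inv_smul_smul]; exact t2)
      have e1 : S.φ (a'' • p''.2) = S.φ (S.i h • (a • p.2)) := by
        rw [S.j_smul _ _ h1, h2, hh, mul_smul, inv_smul_smul, h2']
      have e2 : a'' • p''.2 = S.i h • a • p.2 := S.φ.injOn h1' (S.i_smul _ _ h1) e1
      refine ⟨a''⁻¹ * S.i h * a, ?_, ?_⟩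
      · rw [mul_smul, mul_smul, ← e2, inv_smul_smul]
      · have e3 : l.α (S.i h) = l.β b'' * (l.β b)⁻¹ := by rw [l.comm, hh]; simp
        have e4 : p.1 = q'.1 * (l.β b)⁻¹ * l.α a := by rw [← h3]; group
        have e5 : p''.1 = q'.1 * (l.β b'')⁻¹ * l.α a'' := by rw [← h3']; group
        rw [map_mul, map_mul, e3, map_inv, e4, e5]; group
    · -- inl inr inr
      obtain ⟨a, b, h1, h2, h3⟩ := h
      obtain ⟨b', h1', h2'⟩ := h'
      refine ⟨a, b * b'⁻¹, h1, ?_, ?_⟩
      · rw [h2, h1', mul_smul, inv_smul_smul]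
      · rw [h3, h2', map_mul, map_inv]; group
    · -- inr inl inl
      obtain ⟨a, b, h1, h2, h3⟩ := h
      obtain ⟨a', h1', h2'⟩ := h'
      refine ⟨a * a'⁻¹, b, ?_, ?_, ?_⟩
      · rw [h1', mul_smul, inv_smul_smul]; exact h1
      · rw [h1', mul_smul, inv_smul_smul]; exact h2
      · rw [← h3, h2', map_mul, map_inv]; group
    · -- inr inl inr
      obtain ⟨a, b, h1, h2, h3⟩ := h
      obtain ⟨a', b', h1', h2', h3'⟩ := h'
      obtain ⟨h, hh⟩ := S.precA (a' * a⁻¹) (a • p'.2) h1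
        (by rw [mul_smul, inv_smul_smul]; exact h1')
      have e1 : b' • q''.2 = S.j h • (b • q.2) := by
        rw [← h2, ← S.j_smul _ _ h1, hh, mul_smul, inv_smul_smul, h2']
      refine ⟨b'⁻¹ * S.j h * b, ?_, ?_⟩
      · rw [mul_smul, mul_smul, ← e1, inv_smul_smul]
      · have e3 : l.β (S.j h) = l.α a' * (l.α a)⁻¹ := by rw [← l.comm, hh]; simp
        have e4 : q.1 = p'.1 * (l.α a)⁻¹ * l.β b := by rw [h3]; group
        have e5 : q''.1 = p'.1 * (l.α a')⁻¹ * l.β b' := by rw [h3']; group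
        rw [map_mul, map_mul, e3, map_inv, e4, e5]; group
    · -- inr inr inl
      obtain ⟨b, h1, h2⟩ := h
      obtain ⟨a', b', h1', h2', h3'⟩ := h'
      refine ⟨a', b' * b, h1', ?_, ?_⟩
      · rw [mul_smul, ← h1]; exact h2'
      · rw [h3', h2, map_mul]; group
    · -- inr inr inr
      obtain ⟨b, h1, h2⟩ := h
      obtain ⟨b', h1', h2'⟩ := h'
      exact ⟨b' * b, by rw [h1', h1, mul_smul], by rw [h2, h2', map_mul, mul_assoc]⟩

/-- The setoid of identifications. -/
def setoid : Setoid (Pre l) := ⟨Rel l, rel_equivalence l⟩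

/-- The glued space with group labels. -/
def Tot : Type _ := Quotient (setoid l)

instance : TopologicalSpace (Tot l) := inferInstanceAs (TopologicalSpace (Quotient _))

/-- The chart from the copy of `X` with index `g`. -/
def inX (g : G) (x : X) : Tot l := Quotient.mk (setoid l) (.inl ⟨g, x⟩)

/-- The chart from the copy of `Y` with index `g`. -/
def inY (g : G) (y : Y) : Tot l := Quotient.mk (setoid l) (.inr ⟨g, y⟩)

theorem inX_eq_inX {g g' : G} {x x' : X} :
    inX l g x = inX l g' x' ↔ ∃ a : A, x' = a • x ∧ g = g' * l.α a :=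
  Quotient.eq (r := setoid l)

theorem inY_eq_inY {g g' : G} {y y' : Y} :
    inY l g y = inY l g' y' ↔ ∃ b : B, y' = b • y ∧ g = g' * l.β b :=
  Quotient.eq (r := setoid l)

theorem inX_eq_inY {g g' : G} {x : X} {y : Y} :
    inX l g x = inY l g' y ↔ ∃ (a : A) (b : B), a • x ∈ S.φ.source ∧ S.φ (a • x) = b • y ∧
      g * (l.α a)⁻¹ = g' * (l.β b)⁻¹ :=
  Quotient.eq (r := setoid l)

theorem continuous_inX (g : G) : Continuous (inX l g) :=
  continuous_quotient_mk'.comp (continuous_inl.comp continuous_sigmaMk)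

theorem continuous_inY (g : G) : Continuous (inY l g) :=
  continuous_quotient_mk'.comp (continuous_inr.comp continuous_sigmaMk)

theorem isOpen_iff {W : Set (Tot l)} :
    IsOpen W ↔ (∀ g, IsOpen (inX l g ⁻¹' W)) ∧ ∀ g, IsOpen (inY l g ⁻¹' W) := by
  have h1 : IsOpen W ↔ IsOpen (Quotient.mk (setoid l) ⁻¹' W) := Iff.rfl
  rw [h1, isOpen_sum_iff, isOpen_sigma_iff, isOpen_sigma_iff]
  rfl

variable [ContinuousConstSMul A X] [ContinuousConstSMul B Y]

theorem isOpenMap_inX (g : G) : IsOpenMap (inX l g) := by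
  intro V hV
  rw [isOpen_iff]
  constructor
  · intro g'
    have : inX l g' ⁻¹' (inX l g '' V) = ⋃ (a : A) (_ : g = g' * l.α a), (a • ·) '' V := by
      ext x'
      simp only [mem_preimage, mem_image, mem_iUnion, exists_prop]
      constructor
      · rintro ⟨x, hx, h⟩
        obtain ⟨a, h1, h2⟩ := (inX_eq_inX l).1 h
        exact ⟨a, h2, x, hx, h1.symm⟩
      · rintro ⟨a, h2, x, hx, h1⟩
        exact ⟨x, hx, (inX_eq_inX l).2 ⟨a, h1.symm, h2⟩⟩
    rw [this]
    exact isOpen_iUnion fun a => isOpen_iUnion fun _ => isOpenMap_smul a V hV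
  · intro g'
    have : inY l g' ⁻¹' (inX l g '' V) =
        ⋃ (a : A) (b : B) (_ : g * (l.α a)⁻¹ = g' * (l.β b)⁻¹),
          (b⁻¹ • ·) '' (S.φ '' (S.φ.source ∩ (a • ·) '' V)) := by
      ext y
      simp only [mem_preimage, mem_image, mem_iUnion, exists_prop, mem_inter_iff]
      constructor
      · rintro ⟨x, hx, h⟩
        obtain ⟨a, b, h1, h2, h3⟩ := (inX_eq_inY l).1 h
        exact ⟨a, b, h3, S.φ (a • x), ⟨a • x, ⟨h1, x, hx, rfl⟩, rfl⟩, by
          rw [h2, inv_smul_smul]⟩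
      · rintro ⟨a, b, h3, _, ⟨_, ⟨h1, x, hx, rfl⟩, rfl⟩, h2⟩
        exact ⟨x, hx, (inX_eq_inY l).2 ⟨a, b, h1, by rw [← h2, smul_inv_smul], h3⟩⟩
    rw [this]
    exact isOpen_iUnion fun a => isOpen_iUnion fun b => isOpen_iUnion fun _ =>
      isOpenMap_smul b⁻¹ _ (S.φ.isOpen_image_source_inter (isOpenMap_smul a V hV))

theorem isOpenMap_inY (g : G) : IsOpenMap (inY l g) := by
  intro V hV
  rw [isOpen_iff]
  constructor
  · intro g'
    have : inX l g' ⁻¹' (inY l g '' V) =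
        ⋃ (a : A) (b : B) (_ : g' * (l.α a)⁻¹ = g * (l.β b)⁻¹),
          (a⁻¹ • ·) '' (S.φ.symm '' (S.φ.symm.source ∩ (b • ·) '' V)) := by
      ext x
      simp only [mem_preimage, mem_image, mem_iUnion, exists_prop, mem_inter_iff]
      constructor
      · rintro ⟨y, hy, h⟩
        obtain ⟨a, b, h1, h2, h3⟩ := (inX_eq_inY l).1 h.symm
        refine ⟨a, b, h3, a • x, ⟨b • y, ⟨?_, y, hy, rfl⟩, ?_⟩, by rw [inv_smul_smul]⟩
        · rw [← h2]; exact S.φ.map_source h1
        · rw [← h2]; exact S.φ.left_inv h1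
      · rintro ⟨a, b, h3, _, ⟨_, ⟨h1, y, hy, rfl⟩, rfl⟩, h2⟩
        refine ⟨y, hy, Eq.symm ((inX_eq_inY l).2 ⟨a, b, ?_, ?_, h3⟩)⟩
        · rw [← h2, smul_inv_smul]; exact S.φ.map_target h1
        · rw [← h2, smul_inv_smul]; exact S.φ.right_inv h1
    rw [this]
    exact isOpen_iUnion fun a => isOpen_iUnion fun b => isOpen_iUnion fun _ =>
      isOpenMap_smul a⁻¹ _ (S.φ.symm.isOpen_image_source_inter (isOpenMap_smul b V hV))
  · intro g'
    have : inY l g' ⁻¹' (inY l g '' V) = ⋃ (b : B) (_ : g = g' * l.β b), (b • ·) '' V := by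
      ext x'
      simp only [mem_preimage, mem_image, mem_iUnion, exists_prop]
      constructor
      · rintro ⟨x, hx, h⟩
        obtain ⟨a, h1, h2⟩ := (inY_eq_inY l).1 h
        exact ⟨a, h2, x, hx, h1.symm⟩
      · rintro ⟨a, h2, x, hx, h1⟩
        exact ⟨x, hx, (inY_eq_inY l).2 ⟨a, h1.symm, h2⟩⟩
    rw [this]
    exact isOpen_iUnion fun a => isOpen_iUnion fun _ => isOpenMap_smul a V hV

/-! ### The action of `G` and the projection to the quotient -/

/-- The action of `G` on the indices. -/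
def actPre (g : G) : Pre l → Pre l
  | .inl p => .inl ⟨g * p.1, p.2⟩
  | .inr q => .inr ⟨g * q.1, q.2⟩

omit [ContinuousConstSMul A X] [ContinuousConstSMul B Y] in
theorem rel_actPre (g : G) {p q : Pre l} (h : Rel l p q) : Rel l (actPre l g p) (actPre l g q) := by
  rcases p with p | p <;> rcases q with q | q
  · obtain ⟨a, h1, h2⟩ := h
    exact ⟨a, h1, by simp only [h2, mul_assoc]⟩
  · obtain ⟨a, b, h1, h2, h3⟩ := h
    exact ⟨a, b, h1, h2, by simp only [mul_assoc, h3]⟩
  · obtain ⟨a, b, h1, h2, h3⟩ := h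
    exact ⟨a, b, h1, h2, by simp only [mul_assoc, h3]⟩
  · obtain ⟨a, h1, h2⟩ := h
    exact ⟨a, h1, by simp only [h2, mul_assoc]⟩

instance : MulAction G (Tot l) where
  smul g := Quotient.map' (s₁ := setoid l) (s₂ := setoid l) (actPre l g)
    (fun _ _ h => rel_actPre l g h)
  one_smul x := by
    obtain ⟨p, rfl⟩ := Quotient.exists_rep x
    change Quotient.mk (setoid l) (actPre l 1 p) = _
    rcases p with p | p <;> simp [actPre]
  mul_smul g h x := by
    obtain ⟨p, rfl⟩ := Quotient.exists_rep x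
    change Quotient.mk (setoid l) (actPre l (g * h) p) =
      Quotient.mk (setoid l) (actPre l g (actPre l h p))
    rcases p with p | p <;> simp [actPre, mul_assoc]

omit [ContinuousConstSMul A X] [ContinuousConstSMul B Y] in
@[simp] theorem smul_inX (g g' : G) (x : X) : g • inX l g' x = inX l (g * g') x := rfl

omit [ContinuousConstSMul A X] [ContinuousConstSMul B Y] in
@[simp] theorem smul_inY (g g' : G) (y : Y) : g • inY l g' y = inY l (g * g') y := rfl

variable (S) in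
/-- The trivial label. -/
def triv : S.Lab PUnit := ⟨1, 1, fun _ => rfl⟩

variable (S) in
/-- The glued space. -/
abbrev Q : Type _ := Tot (triv S)

variable (S) in
/-- The chart `X → M`. -/
def qX (x : X) : Q S := inX (triv S) PUnit.unit x

variable (S) in
/-- The chart `Y → M`. -/
def qY (y : Y) : Q S := inY (triv S) PUnit.unit y

omit [ContinuousConstSMul A X] [ContinuousConstSMul B Y] in
theorem qX_eq_qX {x x' : X} : qX S x = qX S x' ↔ ∃ a : A, x' = a • x := by
  unfold qX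
  rw [inX_eq_inX]
  exact ⟨fun ⟨a, h, _⟩ => ⟨a, h⟩, fun ⟨a, h⟩ => ⟨a, h, rfl⟩⟩

omit [ContinuousConstSMul A X] [ContinuousConstSMul B Y] in
theorem qY_eq_qY {y y' : Y} : qY S y = qY S y' ↔ ∃ b : B, y' = b • y := by
  unfold qY
  rw [inY_eq_inY]
  exact ⟨fun ⟨a, h, _⟩ => ⟨a, h⟩, fun ⟨a, h⟩ => ⟨a, h, rfl⟩⟩

omit [ContinuousConstSMul A X] [ContinuousConstSMul B Y] in
theorem qX_eq_qY {x : X} {y : Y} : qX S x = qY S y ↔
    ∃ (a : A) (b : B), a • x ∈ S.φ.source ∧ S.φ (a • x) = b • y := by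
  unfold qX qY
  rw [inX_eq_inY]
  exact ⟨fun ⟨a, b, h, h', _⟩ => ⟨a, b, h, h'⟩, fun ⟨a, b, h, h'⟩ => ⟨a, b, h, h', rfl⟩⟩

/-- Forget the labels. -/
def forgetPre : Pre l → Pre (triv S)
  | .inl p => .inl ⟨PUnit.unit, p.2⟩
  | .inr q => .inr ⟨PUnit.unit, q.2⟩

omit [ContinuousConstSMul A X] [ContinuousConstSMul B Y] in
theorem rel_forgetPre {p q : Pre l} (h : Rel l p q) : Rel (triv S) (forgetPre l p) (forgetPre l q) := by
  rcases p with p | p <;> rcases q with q | q
  · obtain ⟨a, h1, h2⟩ := h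
    exact ⟨a, h1, rfl⟩
  · obtain ⟨a, b, h1, h2, h3⟩ := h
    exact ⟨a, b, h1, h2, rfl⟩
  · obtain ⟨a, b, h1, h2, h3⟩ := h
    exact ⟨a, b, h1, h2, rfl⟩
  · obtain ⟨a, h1, h2⟩ := h
    exact ⟨a, h1, rfl⟩

/-- The projection to the quotient space. -/
def proj : Tot l → Q S :=
  Quotient.map' (s₁ := setoid l) (s₂ := setoid (triv S)) (forgetPre l)
    (fun _ _ h => rel_forgetPre l h)

omit [ContinuousConstSMul A X] [ContinuousConstSMul B Y] in
@[simp] theorem proj_inX (g : G) (x : X) : proj l (inX l g x) = qX S x := rfl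

omit [ContinuousConstSMul A X] [ContinuousConstSMul B Y] in
@[simp] theorem proj_inY (g : G) (y : Y) : proj l (inY l g y) = qY S y := rfl

omit [ContinuousConstSMul A X] [ContinuousConstSMul B Y] in
theorem continuous_qX : Continuous (qX S) := continuous_inX _ _

omit [ContinuousConstSMul A X] [ContinuousConstSMul B Y] in
theorem continuous_qY : Continuous (qY S) := continuous_inY _ _

theorem isOpenMap_qX : IsOpenMap (qX S) := isOpenMap_inX _ _

theorem isOpenMap_qY : IsOpenMap (qY S) := isOpenMap_inY _ _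

omit [ContinuousConstSMul A X] [ContinuousConstSMul B Y] in
theorem tot_cases (e : Tot l) : (∃ g x, e = inX l g x) ∨ ∃ g y, e = inY l g y := by
  obtain ⟨p, rfl⟩ := Quotient.exists_rep e
  rcases p with p | p
  · exact Or.inl ⟨p.1, p.2, rfl⟩
  · exact Or.inr ⟨p.1, p.2, rfl⟩

omit [ContinuousConstSMul A X] [ContinuousConstSMul B Y] in
theorem continuous_proj : Continuous (proj l) := by
  refine continuous_quot_lift _ ?_
  refine continuous_sum_dom.2 ⟨?_, ?_⟩
  · exact continuous_sigma fun g => continuous_qX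
  · exact continuous_sigma fun g => continuous_qY

/-- `Tot G → M` is a covering with group `G`. -/
theorem isQuotientCoveringMap_proj
    (hA : ∀ x : X, ∃ U ∈ 𝓝 x, ∀ a : A, ((a • ·) '' U ∩ U).Nonempty → a = 1)
    (hB : ∀ y : Y, ∃ U ∈ 𝓝 y, ∀ b : B, ((b • ·) '' U ∩ U).Nonempty → b = 1) :
    IsQuotientCoveringMap (proj l) G where
  toIsQuotientMap := by
    refine IsOpenQuotientMap.isQuotientMap ⟨?_, continuous_proj l, ?_⟩
    · intro m
      rcases tot_cases (triv S) m with ⟨g, x, rfl⟩ | ⟨g, y, rfl⟩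
      · exact ⟨inX l 1 x, rfl⟩
      · exact ⟨inY l 1 y, rfl⟩
    · intro W hW
      have : proj l '' W = (⋃ g : G, qX S '' (inX l g ⁻¹' W)) ∪ ⋃ g : G, qY S '' (inY l g ⁻¹' W) := by
        ext m
        constructor
        · rintro ⟨e, he, rfl⟩
          rcases tot_cases l e with ⟨g, x, rfl⟩ | ⟨g, x, rfl⟩
          · exact Or.inl (mem_iUnion.2 ⟨g, x, he, rfl⟩)
          · exact Or.inr (mem_iUnion.2 ⟨g, x, he, rfl⟩)
        · rintro (h | h)
          · obtain ⟨g, x, hx, rfl⟩ := mem_iUnion.1 h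
            exact ⟨_, hx, rfl⟩
          · obtain ⟨g, x, hx, rfl⟩ := mem_iUnion.1 h
            exact ⟨_, hx, rfl⟩
      rw [this]
      exact (isOpen_iUnion fun g => isOpenMap_qX _ (hW.preimage (continuous_inX l g))).union
        (isOpen_iUnion fun g => isOpenMap_qY _ (hW.preimage (continuous_inY l g)))
  continuous_const_smul g := by
    refine continuous_quot_lift _ ?_
    refine continuous_sum_dom.2 ⟨?_, ?_⟩
    · exact continuous_sigma fun g' => continuous_inX l (g * g')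
    · exact continuous_sigma fun g' => continuous_inY l (g * g')
  apply_eq_iff_mem_orbit {e₁ e₂} := by
    constructor
    · intro h
      rcases tot_cases l e₁ with ⟨g, x, rfl⟩ | ⟨g, y, rfl⟩ <;>
        rcases tot_cases l e₂ with ⟨g', x', rfl⟩ | ⟨g', y', rfl⟩
      · rw [proj_inX, proj_inX, qX_eq_qX] at h
        obtain ⟨a, rfl⟩ := h
        refine ⟨g * (l.α a)⁻¹ * g'⁻¹, ?_⟩
        simp only [smul_inX]
        exact (inX_eq_inX l).2 ⟨a⁻¹, by rw [inv_smul_smul], by simp⟩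
      · rw [proj_inX, proj_inY, qX_eq_qY] at h
        obtain ⟨a, b, h1, h2⟩ := h
        refine ⟨g * (l.α a)⁻¹ * l.β b * g'⁻¹, ?_⟩
        simp only [smul_inY]
        exact ((inX_eq_inY l).2 ⟨a, b, h1, h2, by simp⟩).symm
      · rw [proj_inY, proj_inX] at h
        obtain ⟨a, b, h1, h2⟩ := qX_eq_qY.1 h.symm
        refine ⟨g * (l.β b)⁻¹ * l.α a * g'⁻¹, ?_⟩
        simp only [smul_inX]
        exact ((inX_eq_inY l).2 ⟨a, b, h1, h2, by simp⟩)
      · rw [proj_inY, proj_inY, qY_eq_qY] at h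
        obtain ⟨a, rfl⟩ := h
        refine ⟨g * (l.β a)⁻¹ * g'⁻¹, ?_⟩
        simp only [smul_inY]
        exact (inY_eq_inY l).2 ⟨a⁻¹, by rw [inv_smul_smul], by simp⟩
    · rintro ⟨g, rfl⟩
      rcases tot_cases l e₂ with ⟨g', x', rfl⟩ | ⟨g', y', rfl⟩
      · rfl
      · rfl
  disjoint e := by
    rcases tot_cases l e with ⟨g, x, rfl⟩ | ⟨g, y, rfl⟩
    · obtain ⟨U, hU, hU'⟩ := hA x
      refine ⟨inX l g '' U, (isOpenMap_inX l g).image_mem_nhds hU, ?_⟩
      rintro g₀ ⟨_, ⟨_, ⟨x₁, hx₁, rfl⟩, rfl⟩, ⟨x₂, hx₂, h⟩⟩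
      simp only [smul_inX] at h
      obtain ⟨a, h1, h2⟩ := (inX_eq_inX l).1 h
      have ha : a = 1 := hU' a ⟨x₁, ⟨x₂, hx₂, h1.symm⟩, hx₁⟩
      rw [ha, map_one, mul_one] at h2
      exact mul_eq_right.1 h2.symm
    · obtain ⟨U, hU, hU'⟩ := hB y
      refine ⟨inY l g '' U, (isOpenMap_inY l g).image_mem_nhds hU, ?_⟩
      rintro g₀ ⟨_, ⟨_, ⟨x₁, hx₁, rfl⟩, rfl⟩, ⟨x₂, hx₂, h⟩⟩
      simp only [smul_inY] at h
      obtain ⟨a, h1, h2⟩ := (inY_eq_inY l).1 h
      have ha : a = 1 := hU' a ⟨x₁, ⟨x₂, hx₂, h1.symm⟩, hx₁⟩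
      rw [ha, map_one, mul_one] at h2
      exact mul_eq_right.1 h2.symm

end GlueSys

end Pool.Agent.Work.MP_f0c219_gt
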