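import Pool.Agent.Work.MP_f0c219_gt.Cat0
import Pool.Agent.Work.MP_f0c219_gt.Gam

/-!
# Block statements (never import this file from a hand-in: it contains `sorry`)

See BLUEPRINT.md for the proofs. Each block goes to its own file with the theorem name below
(in the namespace `Pool.Agent.Work.MP_f0c219_gt.<Block>`), without `sorry`.
-/

open Set Topology
open scoped ComplexConjugate commutatorElement

namespace Pool.Agent.Work.MP_f0c219_gt.Interface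

/-! ## Block A: obstruction for groups acting on CAT(0) spaces (Obstruct.lean) -/

theorem obstruction {X : Type} [MetricSpace X] [Nonempty X] (hX : IsCAT0 X) {G : Type} [Group G]
    [MulAction G X] (hiso : ∀ (g : G) (x y : X), dist (g • x) (g • y) = dist x y)
    (hdisp : ∃ δ : ℝ, 0 < δ ∧ ∀ g : G, g ≠ 1 → ∀ x : X, δ ≤ dist x (g • x))
    {f l y z f' y' z' : G} (h1 : Commute f y) (h2 : Commute f z) (hl : l = ⁅y, z⁆)
    (hf' : f' = l * f) (h3 : Commute f' y') (h4 : Commute f' z') (hf : f = ⁅y', z'⁆) : f = 1 := by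
  sorry

/-! ## Block B: Cartan-Hadamard (Hadamard.lean) -/

theorem cartan_hadamard {M : Type} [MetricSpace M] [CompactSpace M] (hM : LocallyCAT0 M) (p : M) :
    ∃ (X : Type) (_ : MetricSpace X) (_ : MulAction (FundamentalGroup M p) X), Nonempty X ∧
      IsCAT0 X ∧ (∀ (g : FundamentalGroup M p) (x y : X), dist (g • x) (g • y) = dist x y) ∧
      ∃ δ : ℝ, 0 < δ ∧ ∀ g : FundamentalGroup M p, g ≠ 1 → ∀ x : X, δ ≤ dist x (g • x) := by
  sorry

/-! ## Block C: Reshetnyak gluing (Reshetnyak.lean) -/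

theorem isCAT0_union {X : Type} [MetricSpace X] {Y₁ Y₂ : Set X} (hU : Y₁ ∪ Y₂ = univ)
    (h₁ : IsCAT0 Y₁) (h₂ : IsCAT0 Y₂)
    (hA : ∀ x ∈ Y₁ ∩ Y₂, ∀ y ∈ Y₁ ∩ Y₂, ∃ γ : ℝ → X, IsGeodesic γ x y ∧
      ∀ t ∈ Icc (0 : ℝ) 1, γ t ∈ Y₁ ∩ Y₂)
    (hx : ∀ x ∈ Y₁, ∀ y ∈ Y₂, ∃ a ∈ Y₁ ∩ Y₂, dist x y = dist x a + dist a y) : IsCAT0 X := by
  sorry

/-! ## Block D: hyperbolic space minus a horoball (TruncHyp.lean) -/

/-- Upper half space below the horosphere at height one. -/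
abbrev TH : Type := {q : ℂ × ℝ // 0 < q.2 ∧ q.2 ≤ 1}

/-- The path metric of hyperbolic 3-space minus the open horoball `{t > 1}`. -/
noncomputable def dTH (p q : TH) : ℝ :=
  if ‖p.1.1 - q.1.1‖ ≤ √(1 - p.1.2 ^ 2) + √(1 - q.1.2 ^ 2) then
    Real.arcosh ((‖p.1.1 - q.1.1‖ ^ 2 + p.1.2 ^ 2 + q.1.2 ^ 2) / (2 * p.1.2 * q.1.2))
  else (Real.artanh (√(1 - p.1.2 ^ 2)) - √(1 - p.1.2 ^ 2)) +
    (Real.artanh (√(1 - q.1.2 ^ 2)) - √(1 - q.1.2 ^ 2)) + ‖p.1.1 - q.1.1‖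

theorem truncHyp : ∃ m : MetricSpace TH, (∀ p q, m.dist p q = dTH p q) ∧
    m.toUniformSpace.toTopologicalSpace = (inferInstance : TopologicalSpace TH) ∧
    @IsCAT0 TH m := by
  sorry

/-! ## Block E: quasi-isometric amalgams (PushoutQI.lean) -/

theorem pushout_quasiIsometric {ι : Type} [Finite ι] [Nonempty ι] {H : Type} [Group H]
    {G : ι → Type} [∀ i, Group (G i)] (hfg : ∀ i, Group.FG (G i)) (φ φ' : ∀ i, H →* G i)
    (hφ : ∀ i, Function.Injective (φ i)) (hφ' : ∀ i, Function.Injective (φ' i))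
    (F : ∀ i, G i ≃ G i) (hF : ∀ i h x, F i (φ i h * x) = φ' i h * F i x)
    (hL : ∀ i s, {y | ∃ x, y = F i (s * x) * (F i x)⁻¹}.Finite)
    (hL' : ∀ i s, {y | ∃ x, y = (F i).symm (s * x) * ((F i).symm x)⁻¹}.Finite) :
    QuasiIsometric (Monoid.PushoutI φ) (Monoid.PushoutI φ') := by
  sorry

/-! ## Block F: the plane counting quasi-morphism (Planes.lean) -/

/-- The translation `(1 w; 0 1)` -/
def T (w : GaussianInt) : SL2Gi := ⟨!![1, w; 0, 1], by simp [Matrix.det_fin_two]⟩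

theorem exists_quasimorphism : ∃ q : SL2Gi → ℤ,
    (∀ g h, InGam g → InGam h → |q (g * h) - q g - q h| ≤ 3) ∧
    (∀ g, InGam g → q (-g) = q g) ∧
    ∀ m n : ℤ, q (T (m * ⟨1, 1⟩ + n * ⟨-2, 2⟩)) = n := by
  sorry

/-! ## Block G: the Borromean rings lattice (Borromean.lean) -/

/-- `InGam` is a subgroup (name: `Gam`). -/
theorem inGam_subgroup : ∃ Γ : Subgroup SL2Gi, ∀ g, g ∈ Γ ↔ InGam g := by
  sorry

/-- The truncation matrix `diag(4, 1/4)`, mapping `{t > 1}` to `{t > 16}`. -/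
noncomputable def D4 : SL2C := ⟨!![4, 0; 0, 1 / 4], by simp [Matrix.det_fin_two]⟩

/-- The lattice as a `CuspedHyp3`. -/
theorem exists_borromean : ∃ B : CuspedHyp3, (∀ g : SL2C, g ∈ B.Γ ↔ ∃ γ : SL2Gi, InGam γ ∧ toC γ = g) ∧
    (∀ h : SL2C, h ∈ B.cusps ↔ ∃ γ : SL2Gi, h = toC γ * D4) := by
  sorry

end Pool.Agent.Work.MP_f0c219_gt.Interface
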