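import Pool.Agent.Work.MP_f0c219_gt.Flip

/-!
# Second stage statements (never import this file from a hand-in: it contains `sorry`)
-/

open Set Topology
open scoped ComplexConjugate

namespace Pool.Agent.Work.MP_f0c219_gt.Interface2

/-! ## E: general CAT(0) lemmas (Cat0Ext.lean) -/

/-- E1 -/
theorem IsCAT0.of_equiv {X Y : Type*} [MetricSpace X] [MetricSpace Y] (e : X ≃ Y)
    (he : Isometry e) (hX : IsCAT0 X) : IsCAT0 Y := by
  sorry

/-- E2 -/
theorem IsCAT0.of_convex {X : Type*} [MetricSpace X] (hX : IsCAT0 X) (S : Set X)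
    (hS : ∀ x ∈ S, ∀ y ∈ S, ∃ γ : ℝ → X, IsGeodesic γ x y ∧ ∀ t ∈ Icc (0 : ℝ) 1, γ t ∈ S) :
    IsCAT0 S := by
  sorry

/-- E2' -/
theorem IsCAT0.closedBall {X : Type*} [MetricSpace X] (hX : IsCAT0 X) (x : X) (r : ℝ) :
    IsCAT0 (Metric.closedBall x r) := by
  sorry

/-- E3 -/
theorem IsCAT0.prod {X Y P : Type*} [MetricSpace X] [MetricSpace Y] [MetricSpace P]
    (hX : IsCAT0 X) (hY : IsCAT0 Y) (e : P ≃ X × Y)
    (he : ∀ p q, dist p q ^ 2 = dist (e p).1 (e q).1 ^ 2 + dist (e p).2 (e q).2 ^ 2) :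
    IsCAT0 P := by
  sorry

/-- E4 -/
theorem IsCAT0.radial {X : Type*} [MetricSpace X] (hX : IsCAT0 X) {p a x : X} {r : ℝ}
    (hr : 0 ≤ r) (hx : dist x p ≤ r) (ha : r ≤ dist p a) (hpa : 0 < dist p a) {γ : ℝ → X}
    (hγ : IsGeodesic γ p a) : dist x (γ (r / dist p a)) ≤ dist x a := by
  sorry

/-- E5: local gluing. -/
theorem isCAT0_closedBall_of_glued {M : Type} [MetricSpace M] {V W : Set M} (hVW : V ∪ W = univ)
    {p : M} (hpV : p ∈ V) (hpW : p ∈ W) {r : ℝ} (hr : 0 < r)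
    (hV : IsCAT0 ↥(V ∩ Metric.closedBall p (3 * r)))
    (hW : IsCAT0 ↥(W ∩ Metric.closedBall p (3 * r)))
    (hZ : ∀ x ∈ V ∩ W ∩ Metric.closedBall p (3 * r), ∀ y ∈ V ∩ W ∩ Metric.closedBall p (3 * r),
      ∃ γ : ℝ → M, IsGeodesic γ x y ∧ ∀ t ∈ Icc (0 : ℝ) 1, γ t ∈ V ∩ W)
    (hx : ∀ x ∈ V, ∀ y ∈ W, ∃ a ∈ V ∩ W, dist x y = dist x a + dist a y) :
    IsCAT0 (Metric.closedBall p r) := by
  sorry

/-- E6: the induced length metric of a compact connected locally CAT(0) space. -/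
theorem admitsLocallyCAT0_of_locallyCAT0 {M : Type*} [t : TopologicalSpace M] [CompactSpace M]
    [ConnectedSpace M] (m : MetricSpace M) (hm : m.toUniformSpace.toTopologicalSpace = t)
    (h : @LocallyCAT0 M m) : AdmitsLocallyCAT0 M := by
  sorry

/-- E7: quotient of a metric space by a group of isometries with displacement bounded below. -/
theorem exists_quotient_metric {X : Type*} [MetricSpace X] (s : Setoid X) {G : Type*} [Group G]
    [MulAction G X] (hs : ∀ x y, s.r x y ↔ ∃ g : G, g • x = y)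
    (hiso : ∀ (g : G) (x y : X), dist (g • x) (g • y) = dist x y) {ε : ℝ} (hε : 0 < ε)
    (hdisp : ∀ g : G, (∀ x : X, g • x = x) ∨ ∀ x : X, ε ≤ dist x (g • x)) :
    ∃ m : MetricSpace (Quotient s),
      (∀ x y : X, m.dist (Quotient.mk s x) (Quotient.mk s y) ≤ dist x y) ∧
      (∀ x y : X, dist x y < ε / 2 → m.dist (Quotient.mk s x) (Quotient.mk s y) = dist x y) ∧
      (∀ x y : X, m.dist (Quotient.mk s x) (Quotient.mk s y) < ε / 2 → ∃ g : G,
        m.dist (Quotient.mk s x) (Quotient.mk s y) = dist x (g • y)) := by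
  sorry

/-! ## T: topology (Topo.lean) -/

open Model

theorem mem_lattice {p : ℂ × ℝ} : p ∈ Bor.lattice Borromean.D4 ↔ ∃ v, p = ev v := by
  sorry

theorem compact (D : Gluing) : CompactSpace D.Space := by
  sorry

theorem pi1 (e : LatIso) : PathConnectedSpace e.toGluing.Space ∧ ∀ p : e.toGluing.Space,
    Nonempty (FundamentalGroup e.toGluing.Space p ≃* (Monoid.PushoutI e.phi)ᵐᵒᵖ) := by
  sorry

/-! ## J: assembly (Assembly.lean) -/

/-- J1 (from blocks E and F) -/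
theorem quasiIsometric_flip : QuasiIsometric (Monoid.PushoutI (flip 0).phi)
    (Monoid.PushoutI (flip 1).phi) := by
  sorry

/-- J3 -/
theorem QuasiIsometric.transfer {G H G' H' : Type} [Group G] [Group H] [Group G'] [Group H']
    (h : QuasiIsometric G H) (e : Nonempty (G' ≃* Gᵐᵒᵖ)) (e' : Nonempty (H' ≃* Hᵐᵒᵖ)) :
    QuasiIsometric G' H' := by
  sorry

/-- J4 (from blocks A, B and T) -/
theorem not_admits : ¬ AdmitsLocallyCAT0 (flip 1).toGluing.Space := by
  sorry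

/-- J5: the final theorem. -/
theorem final (h : AdmitsLocallyCAT0 (flip 0).toGluing.Space) :
    ∃ G₁ G₂ : Gluing, G₁.Irreducible ∧ G₂.Irreducible ∧
      (∀ (p : G₁.Space) (q : G₂.Space),
        QuasiIsometric (FundamentalGroup G₁.Space p) (FundamentalGroup G₂.Space q)) ∧
      Nonempty G₁.Space ∧ Nonempty G₂.Space ∧
      AdmitsLocallyCAT0 G₁.Space ∧ ¬ AdmitsLocallyCAT0 G₂.Space := by
  sorry

end Pool.Agent.Work.MP_f0c219_gt.Interface2
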