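import Pool.Agent.Work.MP_f0c219_gt.MetricDefs

/-!
# Metric stage statements (never import this file from a hand-in: it contains `sorry`)
-/

open Set Topology Filter
open scoped ComplexConjugate

namespace Pool.Agent.Work.MP_f0c219_gt.Interface3

open Model Borromean TruncHyp

/-! ## S1 (CoreMetric.lean) -/

theorem exists_good (q : Bor.Core) : ∃ γ, Good γ q := by
  sorry

theorem good_of_height {γ : SL2Gi} {q : Bor.Core} (h : 1 / 16 < (tau γ q).1.2) : Good γ q := by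
  sorry

theorem exists_coreMetric : ∃ m : MetricSpace Bor.Core,
    (∀ (g : Bor.Γ) (q q' : Bor.Core), m.dist (g • q) (g • q') = m.dist q q') ∧
    (∀ q, Tendsto (fun q' => m.dist q q') (𝓝 q) (𝓝 0)) ∧
    (∀ γ q, Good γ q → ∀ q' q'', m.dist q q' < 1 → m.dist q q'' < 1 →
      m.dist q' q'' = min (dTH (tau γ q') (tau γ q'')) 1) ∧
    (∀ γ q, Good γ q → ∀ x : TH, dTH (tau γ q) x < 1 → ∃ q', tau γ q' = x ∧ m.dist q q' < 1) ∧
    ∃ ε : ℝ, 0 < ε ∧ ∀ g : Bor.Γ, (∀ q : Bor.Core, g • q = q) ∨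
      ∀ q : Bor.Core, ε ≤ m.dist q (g • q) := by
  sorry

/-! ## S2 (PieceMetric.lean), from S1 and E7, E1, E2, E3 -/

theorem exists_nbarMetric : ∃ (m : MetricSpace Bor.Nbar) (ρ : ℝ), 0 < ρ ∧ ρ ≤ 1 / 4 ∧
    (∀ q : Bor.Core, Tendsto (fun q' => m.dist (cls q) (cls q')) (𝓝 q) (𝓝 0)) ∧
    (∀ γ q, Good γ q → ∀ q' q'', dTH (tau γ q) (tau γ q') ≤ ρ → dTH (tau γ q) (tau γ q'') ≤ ρ →
      m.dist (cls q') (cls q'') = dTH (tau γ q') (tau γ q'')) ∧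
    (∀ γ q, Good γ q → ∀ x : TH, dTH (tau γ q) x ≤ ρ → ∃ q', tau γ q' = x) ∧
    ∀ γ q, Good γ q → ∀ n : Bor.Nbar, m.dist (cls q) n ≤ ρ → ∃ q', n = cls q' ∧
      dTH (tau γ q) (tau γ q') = m.dist (cls q) n := by
  sorry

/-- The metric on the piece `N̄ × S¹`, with fibres of length `1 / √32`. -/
theorem exists_pieceMetric : ∃ (m : MetricSpace Bor.Piece) (ρ : ℝ), 0 < ρ ∧
    (∀ v w, m.dist v w ≤ ρ) ∧
    (∀ v, Tendsto (fun v' => m.dist v v') (𝓝 v) (𝓝 0)) ∧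
    (∀ (v : Bor.Piece) (r : ℝ), r ≤ ρ / 2 →
      @IsCAT0 (@Metric.closedBall _ m.toPseudoMetricSpace v r) (@Subtype.metricSpace _ _ m)) ∧
    (∀ p p' : ℂ × ℝ, fl (p - p') ≤ ρ → m.dist (bd p) (bd p') = fl (p - p')) ∧
    ∀ p p' : ℂ × ℝ, m.dist (bd p) (bd p') < ρ → ∃ v : Z3,
      fl (p - (p' + ev v)) = m.dist (bd p) (bd p') := by
  sorry

theorem bd_add_ev (p : ℂ × ℝ) (v : Z3) : bd (p + ev v) = bd p := by
  sorry

/-! ## S3 (FlipMetric.lean), from S2, E5, E6, T -/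

theorem admits_flip : AdmitsLocallyCAT0 (flip 0).toGluing.Space := by
  sorry

end Pool.Agent.Work.MP_f0c219_gt.Interface3
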