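import Pool.Agent.Work.MP_f0c219_gt.Flip
import Pool.Agent.Work.MP_f0c219_gt_h31.TruncHyp

/-!
# Definitions for the metric on the flip manifold
-/

open Set Topology
open scoped ComplexConjugate

namespace Pool.Agent.Work.MP_f0c219_gt.Model

open Borromean TruncHyp

theorem core_height (γ : SL2Gi) (q : Bor.Core) : (toC γ • q.1).1.2 ≤ 16 := by
  have h := q.2 (toC γ⁻¹ * D4) (mem_cusps.2 ⟨γ⁻¹, rfl⟩)
  rw [mem_horoball_iff, map_inv, inv_inv, not_lt] at h
  exact h

theorem mem_core {q : H3} (h : ∀ γ : SL2Gi, (toC γ • q).1.2 ≤ 16) :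
    ∀ h ∈ Bor.cusps, q ∉ horoball h := by
  intro k hk
  obtain ⟨γ, rfl⟩ := mem_cusps.1 hk
  rw [mem_horoball_iff, not_lt, ← map_inv]
  exact h γ⁻¹

/-- Coordinates of a core point at the cusp `γ⁻¹ ∞`, normalised so that the horosphere has
height one. -/
noncomputable def tau (γ : SL2Gi) (q : Bor.Core) : TH :=
  ⟨(D4⁻¹ • (toC γ • q.1)).1, (D4⁻¹ • (toC γ • q.1)).2, by
    rw [(D4_inv_smul _).2]
    have := core_height γ q
    linarith⟩

/-- The cusp `γ⁻¹ ∞` is the only one where `q` can be high. -/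
def Good (γ : SL2Gi) (q : Bor.Core) : Prop :=
  ∀ γ' : SL2Gi, (γ' * γ⁻¹) 1 0 = 0 ∨ (tau γ' q).1.2 ≤ 1 / 16

/-- The action of the holonomy group on the core. -/
noncomputable instance : MulAction Bor.Γ Bor.Core where
  smul g q := ⟨g.1 • q.1, by
    apply mem_core
    intro γ
    obtain ⟨δ, hδ, h⟩ := mem_Γ.1 g.2
    rw [← h, ← mul_smul, ← map_mul]
    exact core_height _ _⟩
  one_smul q := Subtype.ext (one_smul _ _)
  mul_smul g h q := Subtype.ext (mul_smul _ _ _)

theorem core_smul_val (g : Bor.Γ) (q : Bor.Core) : (g • q).1 = g.1 • q.1 := rfl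

/-- The class of a core point. -/
noncomputable abbrev cls (q : Bor.Core) : Bor.Nbar := Quotient.mk Bor.coreSetoid q

theorem cls_eq_iff {q q' : Bor.Core} : cls q = cls q' ↔ ∃ g : Bor.Γ, g • q = q' := by
  constructor
  · intro h
    obtain ⟨g, hg, h⟩ := Quotient.exact h
    exact ⟨⟨g, hg⟩, Subtype.ext h⟩
  · rintro ⟨g, h⟩
    exact Quotient.sound ⟨g.1, g.2, congrArg Subtype.val h⟩

/-- The point of the core above `z` on the horosphere of the cusp `∞`. -/
noncomputable def wallPt (z : ℂ) : Bor.Core :=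
  ⟨D4 • pt z 1 one_pos, mem_core fun γ => by
    have h16 : (D4 • pt z 1 one_pos).1.2 = 16 := by
      rw [(D4_smul _).2]; simp [pt]
    by_cases hc : γ 1 0 = 0
    · rw [height_of_c_eq_zero hc, h16]
    · have := height_of_c_ne_zero hc (D4 • pt z 1 one_pos)
      rw [h16] at this
      linarith⟩

/-- The point of the boundary torus with coordinates `p`. -/
noncomputable def bd (p : ℂ × ℝ) : Bor.Piece := (cls (wallPt p.1), (p.2 : AddCircle (1 : ℝ)))

theorem isBoundaryPoint_iff {p : ℂ × ℝ} {v : Bor.Piece} :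
    Bor.IsBoundaryPoint D4 p v ↔ v = bd p := by
  constructor
  · rintro ⟨y, hy, rfl⟩
    have : y = wallPt p.1 := Subtype.ext hy
    rw [this]
    rfl
  · rintro rfl
    exact ⟨wallPt p.1, rfl, rfl⟩

/-- The flat norm on the cover of the boundary torus. -/
noncomputable def fl (p : ℂ × ℝ) : ℝ := √(‖p.1‖ ^ 2 + p.2 ^ 2 / 32)

theorem fl_flip (p : ℂ × ℝ) : fl (flipL 0 p) = fl p := by
  unfold fl
  rw [flipL_norm]

end Pool.Agent.Work.MP_f0c219_gt.Model
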