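import Pool.Agent.Work.MP_f0c219_gt.Pi1
import Pool.Agent.Work.MP_f0c219_gt_h72.Extra
import Pool.Agent.Work.MP_f0c219_gt_h72.Volume

/-!
# The concrete gluings
-/

open Set Topology
open scoped ComplexConjugate

namespace Pool.Agent.Work.MP_f0c219_gt.Model

open Borromean

/-- The Borromean rings complement with its cusp neighbourhoods. -/
noncomputable def Bor : CuspedHyp3 := Classical.choose exists_borromean

theorem mem_Γ {g : SL2C} : g ∈ Bor.Γ ↔ ∃ γ : SL2Gi, InGam γ ∧ toC γ = g :=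
  (Classical.choose_spec exists_borromean).1 g

theorem mem_cusps {h : SL2C} : h ∈ Bor.cusps ↔ ∃ γ : SL2Gi, h = toC γ * D4 :=
  (Classical.choose_spec exists_borromean).2 h

theorem D4_mem : D4 ∈ Bor.cusps := mem_cusps.2 ⟨1, by rw [map_one, one_mul]⟩

/-- `ℤ³` -/
abbrev Z3 : Type := ℤ × ℤ × ℤ

/-- The meridian translation length. -/
noncomputable def mu : ℂ := 1 + Complex.I

/-- The longitude translation length. -/
noncomputable def lam : ℂ := -2 + 2 * Complex.I

/-- The lattice of the boundary torus, in the coordinates of the cusp `D4`. -/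
noncomputable def ev : Z3 →+ ℂ × ℝ where
  toFun v := (((v.1 : ℂ) * mu + (v.2.1 : ℂ) * lam) / 16, (v.2.2 : ℝ))
  map_zero' := by simp
  map_add' v w := by
    ext1
    · simp only [Prod.fst_add, Prod.snd_add]
      push_cast
      ring
    · simp only [Prod.fst_add, Prod.snd_add]
      push_cast
      ring

theorem ev_apply (v : Z3) :
    ev v = (((v.1 : ℂ) * mu + (v.2.1 : ℂ) * lam) / 16, (v.2.2 : ℝ)) := rfl

/-- Translations of `H3`, as permutations. -/
noncomputable def trPerm : Multiplicative ℂ →* Equiv.Perm H3 where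
  toFun w := ⟨translate w.toAdd, translate (-w.toAdd), fun q => by
    apply Subtype.ext
    apply Prod.ext
    · simp [translate]
    · rfl, fun q => by
    apply Subtype.ext
    apply Prod.ext
    · simp [translate]
    · rfl⟩
  map_one' := by
    ext1 q
    apply Subtype.ext
    apply Prod.ext
    · simp [translate]
    · rfl
  map_mul' v w := by
    ext1 q
    apply Subtype.ext
    apply Prod.ext
    · simp only [toAdd_mul, Equiv.coe_fn_mk, Equiv.Perm.coe_mul, Function.comp, translate]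
      ring
    · rfl

/-- The holonomy group of `Bor`, as a group of permutations of `H3`. -/
noncomputable def PG : Subgroup (Equiv.Perm H3) := Bor.Γ.map (MulAction.toPermHom SL2C H3)

theorem mem_PG {σ : Equiv.Perm H3} : σ ∈ PG ↔ ∃ γ : SL2Gi, InGam γ ∧ ∀ q, σ q = toC γ • q := by
  unfold PG
  rw [Subgroup.mem_map]
  constructor
  · rintro ⟨g, hg, rfl⟩
    obtain ⟨γ, hγ, rfl⟩ := mem_Γ.1 hg
    exact ⟨γ, hγ, fun q => rfl⟩
  · rintro ⟨γ, hγ, h⟩
    refine ⟨toC γ, mem_Γ.2 ⟨γ, hγ, rfl⟩, ?_⟩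
    ext1 q
    exact (h q).symm

theorem trPerm_mem (a b : ℤ) :
    trPerm (Multiplicative.ofAdd ((a : ℂ) * mu + (b : ℂ) * lam)) ∈ PG := by
  refine mem_PG.2 ⟨Tr (a * ⟨1, 1⟩ + b * ⟨-2, 2⟩), inGam_Tr a b, ?_⟩
  intro q
  rw [Tr_smul]
  change translate ((a : ℂ) * mu + (b : ℂ) * lam) q = _
  congr 1
  rw [map_add, map_mul, map_mul]
  simp only [GaussianInt.toComplex_def, Zsqrtd.re_intCast, Zsqrtd.im_intCast, mu, lam]
  push_cast
  ring

/-- The vertex groups `Γ × ℤ`. -/
abbrev VG : Type := PG × Multiplicative ℤ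

/-- The peripheral subgroup `ℤ³ → Γ × ℤ`. -/
noncomputable def per : Multiplicative Z3 →* VG where
  toFun v := (⟨trPerm (Multiplicative.ofAdd ((v.toAdd.1 : ℂ) * mu + (v.toAdd.2.1 : ℂ) * lam)),
    trPerm_mem _ _⟩, Multiplicative.ofAdd v.toAdd.2.2)
  map_one' := by
    ext1
    · apply Subtype.ext
      simp
    · simp
  map_mul' v w := by
    ext1
    · apply Subtype.ext
      simp only [toAdd_mul, Prod.fst_add, Prod.snd_add, Prod.mk_mul_mk, Subgroup.coe_mul]
      rw [← map_mul, ← ofAdd_add]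
      congr 2
      push_cast
      ring
    · rfl

/-- An affine gluing of the boundary tori: `L` is given by the integral matrix `E`. -/
structure LatIso where
  L : (ℂ × ℝ) ≃ₗ[ℝ] (ℂ × ℝ)
  E : Z3 ≃+ Z3
  comm : ∀ v, L (ev v) = ev (E v)

theorem toComplex_Tr (m n : ℤ) : GaussianInt.toComplex ((m : GaussianInt) * ⟨1, 1⟩ +
    (n : GaussianInt) * ⟨-2, 2⟩) = (m : ℂ) * mu + (n : ℂ) * lam := by
  rw [map_add, map_mul, map_mul]
  simp only [GaussianInt.toComplex_def, Zsqrtd.re_intCast, Zsqrtd.im_intCast, mu, lam]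
  push_cast
  ring

theorem neg_toC_smul (γ : SL2Gi) (q : H3) : toC (-γ) • q = toC γ • q := by
  have h00 : toC (-γ) 0 0 = -(toC γ 0 0) := by rw [toC_entry, toC_entry, neg_entries, map_neg]
  have h01 : toC (-γ) 0 1 = -(toC γ 0 1) := by rw [toC_entry, toC_entry, neg_entries, map_neg]
  have h10 : toC (-γ) 1 0 = -(toC γ 1 0) := by rw [toC_entry, toC_entry, neg_entries, map_neg]
  have h11 : toC (-γ) 1 1 = -(toC γ 1 1) := by rw [toC_entry, toC_entry, neg_entries, map_neg]
  have hd : den (toC (-γ)) q = den (toC γ) q := by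
    unfold den
    rw [h10, h11, Complex.normSq_neg]
    congr 1
    rw [show -(toC γ 1 0) * q.1.1 + -(toC γ 1 1) = -(toC γ 1 0 * q.1.1 + toC γ 1 1) by ring,
      Complex.normSq_neg]
  apply Subtype.ext
  apply Prod.ext
  · rw [smul_z, smul_z, hd, h00, h01, h10, h11]
    congr 1
    rw [show -(toC γ 1 0) * q.1.1 + -(toC γ 1 1) = -(toC γ 1 0 * q.1.1 + toC γ 1 1) by ring,
      map_neg, map_neg]
    ring
  · rw [smul_height, smul_height, hd]

/-- Elements of the Borromean group preserving a high point are translations by the lattice. -/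
theorem exists_translate {γ : SL2Gi} (hγ : InGam γ) (hc : γ 1 0 = 0) :
    ∃ m n : ℤ, ∀ q : H3, toC γ • q = translate ((m : ℂ) * mu + (n : ℂ) * lam) q := by
  obtain ⟨m, n, h | h⟩ := stab_infinity hγ hc
  · refine ⟨m, n, fun q => ?_⟩
    rw [h, Tr_smul, toComplex_Tr]
  · refine ⟨m, n, fun q => ?_⟩
    rw [h, neg_toC_smul, Tr_smul, toComplex_Tr]

theorem mem_lattice {p : ℂ × ℝ} : p ∈ Bor.lattice D4 ↔ ∃ v, p = ev v := by
  constructor
  · rintro ⟨⟨g, hg, h⟩, n, hn⟩
    obtain ⟨γ, hγ, rfl⟩ := mem_Γ.1 hg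
    have h1 := h (pt 0 1 one_pos)
    have h2 : toC γ • (D4 • pt 0 1 one_pos) = D4 • translate p.1 (pt 0 1 one_pos) := by
      rw [← h1, ← mul_smul, ← mul_smul]
      congr 1
      group
    have hh : (D4 • pt 0 1 one_pos).1.2 = 16 := by
      rw [(D4_smul _).2]; change (16 : ℝ) * 1 = 16; norm_num
    have hh2 : (toC γ • (D4 • pt 0 1 one_pos)).1.2 = 16 := by
      rw [h2, (D4_smul _).2]; change (16 : ℝ) * 1 = 16; norm_num
    have hh' : 1 < (D4 • pt 0 1 one_pos).1.2 := by rw [hh]; norm_num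
    have hh2' : 1 < (toC γ • (D4 • pt 0 1 one_pos)).1.2 := by rw [hh2]; norm_num
    have hc : γ 1 0 = 0 := c_eq_zero_of_height hh' hh2'
    obtain ⟨a, b, hab⟩ := exists_translate hγ hc
    refine ⟨(a, b, n), ?_⟩
    rw [ev_apply]
    apply Prod.ext
    · have h3 := congrArg (fun q : H3 => q.1.1) h2
      simp only [hab, translate] at h3
      rw [(D4_smul _).1, (D4_smul _).1] at h3
      simp only [pt] at h3
      simp only
      linear_combination (-1 / 16) * h3
    · exact hn
  · rintro ⟨v, rfl⟩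
    have hg := inGam_Tr v.1 v.2.1
    refine ⟨⟨_, mem_Γ.2 ⟨_, hg, rfl⟩, ?_⟩, v.2.2, rfl⟩
    intro q
    rw [mul_smul, mul_smul, Tr_smul, toComplex_Tr]
    apply Subtype.ext
    apply Prod.ext
    · rw [(D4_inv_smul _).1]
      simp only [translate, ev_apply]
      rw [(D4_smul q).1]
      ring
    · rw [(D4_inv_smul _).2]
      simp only [translate]
      rw [(D4_smul q).2]
      ring

/-- The glued manifold. -/
noncomputable def LatIso.toGluing (e : LatIso) : Gluing where
  V := Bor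
  W := Bor
  a := D4
  b := D4
  a_mem := D4_mem
  b_mem := D4_mem
  L := e.L
  lattice_iff p := by
    rw [mem_lattice, mem_lattice]
    constructor
    · rintro ⟨v, rfl⟩
      exact ⟨e.E v, e.comm v⟩
    · rintro ⟨v, hv⟩
      refine ⟨e.E.symm v, ?_⟩
      apply e.L.injective
      rw [hv, e.comm, AddEquiv.apply_symm_apply]

/-- The edge homomorphisms. -/
noncomputable def LatIso.phi (e : LatIso) : ∀ _ : Bool, Multiplicative Z3 →* VG :=
  fun b => cond b per (per.comp (AddMonoidHom.toMultiplicative e.E.toAddMonoidHom))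

end Pool.Agent.Work.MP_f0c219_gt.Model
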