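import Pool.Agent.Work.MP_f0c219_gt.GraphSpace

/-!
# The fundamental group of the glued space is the amalgamated product
-/

open Set Topology unitInterval MulOpposite

namespace Pool.Agent.Work.MP_f0c219_gt

section Loops

variable {A X M : Type*} [Group A] [TopologicalSpace X] [TopologicalSpace M] [MulAction A X]
  [ContinuousConstSMul A X] {q : X → M} (hq : Continuous q)
  (horb : ∀ x x', q x = q x' ↔ ∃ a : A, x' = a • x) (x₀ : X) {m : M} (hm : q x₀ = m)

omit [TopologicalSpace X] [TopologicalSpace M] [ContinuousConstSMul A X] in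
include horb in
theorem q_smul (a : A) (x : X) : q (a • x) = q x := ((horb _ _).2 ⟨a, rfl⟩).symm

/-- The image in `M` of a path from `x₀` to `a • x₀`. -/
noncomputable def loopOf (a : A) (pp : Path x₀ (a • x₀)) : FundamentalGroup M m :=
  FundamentalGroup.fromPath (.mk ((pp.map hq).cast hm.symm (by rw [q_smul horb, hm])))

variable [SimplyConnectedSpace X]

omit [ContinuousConstSMul A X] in
theorem loopOf_eq (a : A) (pp rr : Path x₀ (a • x₀)) :
    loopOf hq horb x₀ hm a pp = loopOf hq horb x₀ hm a rr := by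
  unfold loopOf
  have h : pp.Homotopic rr := SimplyConnectedSpace.paths_homotopic pp rr
  have h2 : (pp.map hq).Homotopic (rr.map hq) := h.map ⟨q, hq⟩
  have h3 := h2.pathCast hm.symm (show m = q (a • x₀) by rw [q_smul horb, hm])
  exact congrArg _ (Path.Homotopic.Quotient.eq.2 h3)

/-- The homomorphism `A → π₁(M)ᵒᵖ`. -/
noncomputable def loopHom : A →* (FundamentalGroup M m)ᵐᵒᵖ where
  toFun a := op (loopOf hq horb x₀ hm a (PathConnectedSpace.somePath _ _))
  map_one' := by
    rw [loopOf_eq hq horb x₀ hm 1 _ ((Path.refl x₀).cast rfl (one_smul A x₀))]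
    apply unop_injective
    rw [MulOpposite.unop_op, MulOpposite.unop_one, FundamentalGroup.one_def]
    unfold loopOf
    change Path.Homotopic.Quotient.mk _ = Path.Homotopic.Quotient.mk _
    congr 1
    ext t
    simp [hm]
  map_mul' a b := by
    rw [← op_mul]
    congr 1
    set pp : Path x₀ (a • x₀) := PathConnectedSpace.somePath _ _ with hpp
    set rr : Path x₀ (b • x₀) := PathConnectedSpace.somePath _ _ with hrr
    rw [loopOf_eq hq horb x₀ hm (a * b) _
      ((pp.trans (rr.map (continuous_const_smul a))).cast rfl (mul_smul a b x₀))]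
    rw [FundamentalGroup.mul_def]
    unfold loopOf
    change Path.Homotopic.Quotient.mk _ = (Path.Homotopic.Quotient.mk _).trans
      (Path.Homotopic.Quotient.mk _)
    rw [← Path.Homotopic.Quotient.mk_trans]
    congr 1
    ext t
    simp only [Path.cast_coe, Path.map_coe, Function.comp_apply, Path.trans_apply]
    split_ifs with h
    · rfl
    · exact q_smul horb a _

theorem loopHom_apply (a : A) (pp : Path x₀ (a • x₀)) :
    loopHom hq horb x₀ hm a = op (loopOf hq horb x₀ hm a pp) :=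
  congrArg op (loopOf_eq hq horb x₀ hm a _ _)

include hq horb hm in
omit [SimplyConnectedSpace X] in
/-- Paths in the open image of `q` lift to `X`. -/
theorem exists_lift (hop : IsOpenMap q) (hA : ∀ x : X, ∃ U ∈ 𝓝 x, ∀ a : A, ((a • ·) '' U ∩ U).Nonempty → a = 1)
    (γ : Path m m) (hγ : range γ ⊆ range q) : ∃ Γ : C(I, X), Γ 0 = x₀ ∧ ∀ t, q (Γ t) = γ t := by
  -- the covering `X → range q`
  let f : X → range q := fun x => ⟨q x, mem_range_self x⟩
  have hf : IsQuotientCoveringMap f A :=
    { toIsQuotientMap := by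
        refine IsOpenQuotientMap.isQuotientMap ⟨?_, hq.subtype_mk _, ?_⟩
        · rintro ⟨_, x, rfl⟩
          exact ⟨x, rfl⟩
        · intro W hW
          have h1 : f '' W = Subtype.val ⁻¹' (q '' W) := by
            ext y
            constructor
            · rintro ⟨x, hx, rfl⟩
              exact ⟨x, hx, rfl⟩
            · rintro ⟨x, hx, h⟩
              exact ⟨x, hx, Subtype.ext h⟩
          rw [h1]
          exact (hop W hW).preimage continuous_subtype_val
      continuous_const_smul := continuous_const_smul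
      apply_eq_iff_mem_orbit := by
        intro e₁ e₂
        rw [Subtype.ext_iff]
        change q e₁ = q e₂ ↔ _
        rw [horb]
        constructor
        · rintro ⟨a, h⟩
          exact ⟨a⁻¹, by simp [h]⟩
        · rintro ⟨a, h⟩
          exact ⟨a⁻¹, by simp [← h]⟩
      disjoint := hA }
  let γ' : C(I, range q) := ⟨fun t => ⟨γ t, hγ (mem_range_self t)⟩, by fun_prop⟩
  have h0 : γ' 0 = f x₀ := Subtype.ext (by simp [γ', f, hm])
  obtain ⟨Γ, hΓ, hΓ0⟩ := hf.isCoveringMap.exists_path_lifts γ' x₀ h0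
  exact ⟨Γ, hΓ0, fun t => congrArg Subtype.val (congrFun hΓ t)⟩

/-- Loops in the open image of `q` come from `A`. -/
theorem exists_loopHom (hop : IsOpenMap q) (hA : ∀ x : X, ∃ U ∈ 𝓝 x, ∀ a : A, ((a • ·) '' U ∩ U).Nonempty → a = 1)
    (γ : Path m m) (hγ : range γ ⊆ range q) :
    ∃ a : A, loopHom hq horb x₀ hm a = op (FundamentalGroup.fromPath (.mk γ)) := by
  obtain ⟨Γ, hΓ0, hΓ⟩ := exists_lift hq horb x₀ hm hop hA γ hγ
  have h1 : q x₀ = q (Γ 1) := by rw [hΓ 1, γ.target, hm]
  obtain ⟨a, ha⟩ := (horb _ _).1 h1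
  refine ⟨a, ?_⟩
  rw [loopHom_apply hq horb x₀ hm a ⟨Γ, hΓ0, ha⟩]
  congr 1
  unfold loopOf
  change Path.Homotopic.Quotient.mk _ = Path.Homotopic.Quotient.mk _
  congr 1
  ext t
  exact hΓ t

end Loops

namespace GlueSys

variable {A H X Y : Type*} [Group A] [Group H] [TopologicalSpace X] [TopologicalSpace Y]
  [MulAction A X] [MulAction A Y] [ContinuousConstSMul A X] [ContinuousConstSMul A Y]
  (S : GlueSys A A H X Y)

/-- The family of the two edge homomorphisms. -/
def edge : ∀ _ : Bool, H →* A := fun b => cond b S.i S.j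

/-- The amalgamated product. -/
abbrev Am : Type _ := Monoid.PushoutI S.edge

/-- The labels in the amalgamated product. -/
def amLab : S.Lab S.Am where
  α := Monoid.PushoutI.of (φ := S.edge) true
  β := Monoid.PushoutI.of (φ := S.edge) false
  comm h := by
    have h1 := Monoid.PushoutI.of_apply_eq_base S.edge true h
    have h2 := Monoid.PushoutI.of_apply_eq_base S.edge false h
    exact h1.trans h2.symm

variable [SimplyConnectedSpace X] [SimplyConnectedSpace Y]

omit [SimplyConnectedSpace X] [SimplyConnectedSpace Y] [ContinuousConstSMul A X]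
  [ContinuousConstSMul A Y] in
theorem qX_eq_qY_source {x : X} (hx : x ∈ S.φ.source) : qX S x = qY S (S.φ x) :=
  qX_eq_qY.2 ⟨1, 1, by simpa using hx, by simp⟩

variable (hA : ∀ x : X, ∃ U ∈ 𝓝 x, ∀ a : A, ((a • ·) '' U ∩ U).Nonempty → a = 1)
  (hB : ∀ y : Y, ∃ U ∈ 𝓝 y, ∀ b : A, ((b • ·) '' U ∩ U).Nonempty → b = 1)
  (hpc : IsPathConnected S.φ.source) {x₀ : X} (hx₀ : x₀ ∈ S.φ.source)

/-- `A → π₁(M)ᵒᵖ` -/
noncomputable def homA (x₀ : X) : A →* (FundamentalGroup (Q S) (qX S x₀))ᵐᵒᵖ :=
  loopHom (A := A) (q := qX S) continuous_qX (fun _ _ => qX_eq_qX) x₀ rfl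

/-- `B → π₁(M)ᵒᵖ` -/
noncomputable def homB : A →* (FundamentalGroup (Q S) (qX S x₀))ᵐᵒᵖ :=
  loopHom (A := A) (q := qY S) continuous_qY (fun _ _ => qY_eq_qY) (S.φ x₀)
    (qX_eq_qY_source S hx₀).symm

include hpc in
theorem homA_comp (h : H) : homA S x₀ (S.i h) = homB S hx₀ (S.j h) := by
  obtain ⟨pp, hpp⟩ := hpc.joinedIn x₀ hx₀ (S.i h • x₀) (S.i_smul h x₀ hx₀)
  have hcont : ContinuousOn S.φ (range pp) :=
    S.φ.continuousOn.mono (by rintro _ ⟨t, rfl⟩; exact hpp t)
  unfold homA homB
  rw [loopHom_apply _ _ _ _ _ pp, loopHom_apply _ _ _ _ _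
    ((pp.map' hcont).cast rfl (S.j_smul h x₀ hx₀).symm)]
  congr 1
  unfold loopOf
  change Path.Homotopic.Quotient.mk _ = Path.Homotopic.Quotient.mk _
  congr 1
  ext t
  exact qX_eq_qY_source S (hpp t)

/-- The homomorphism from the amalgam to `π₁(M)ᵒᵖ`. -/
noncomputable def psi : S.Am →* (FundamentalGroup (Q S) (qX S x₀))ᵐᵒᵖ :=
  Monoid.PushoutI.lift (fun b => Bool.rec (homB S hx₀) (homA S x₀) b)
    ((homA S x₀).comp S.i) (by
      intro b
      cases b
      · exact MonoidHom.ext fun h => (homA_comp S hpc hx₀ h).symm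
      · rfl)

theorem psi_true (a : A) : psi S hpc hx₀ (Monoid.PushoutI.of (φ := S.edge) true a) = homA S x₀ a := by
  rw [psi, Monoid.PushoutI.lift_of]

theorem psi_false (a : A) :
    psi S hpc hx₀ (Monoid.PushoutI.of (φ := S.edge) false a) = homB S hx₀ a := by
  rw [psi, Monoid.PushoutI.lift_of]

include hA hB in
theorem psi_surjective : Function.Surjective (psi S hpc hx₀) := by
  set m := qX S x₀ with hm
  let K : Subgroup (FundamentalGroup (Q S) m) :=
    { carrier := {g | op g ∈ (psi S hpc hx₀).range}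
      mul_mem' := by
        intro a b ha hb
        change op (a * b) ∈ (psi S hpc hx₀).range
        rw [op_mul]
        exact Subgroup.mul_mem _ hb ha
      one_mem' := by
        change op 1 ∈ (psi S hpc hx₀).range
        exact Subgroup.one_mem _
      inv_mem' := by
        intro a ha
        change op a⁻¹ ∈ (psi S hpc hx₀).range
        rw [op_inv]
        exact Subgroup.inv_mem _ ha }
  have hK : K = ⊤ := by
    refine fundamentalGroup_eq_top (U := range (qX S)) (V := range (qY S))
      isOpenMap_qX.isOpen_range isOpenMap_qY.isOpen_range ?_ ⟨x₀, rfl⟩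
      ⟨S.φ x₀, (qX_eq_qY_source S hx₀).symm⟩ (isPathConnected_range continuous_qX)
      (isPathConnected_range continuous_qY) ?_ K ?_ ?_
    · rw [eq_univ_iff_forall]
      intro e
      rcases tot_cases (triv S) e with ⟨g, x, rfl⟩ | ⟨g, y, rfl⟩
      · exact Or.inl ⟨x, rfl⟩
      · exact Or.inr ⟨y, rfl⟩
    · have : range (qX S) ∩ range (qY S) = qX S '' S.φ.source := by
        ext e
        constructor
        · rintro ⟨⟨x, rfl⟩, ⟨y, hy⟩⟩
          obtain ⟨a, b, h1, h2⟩ := qX_eq_qY.1 hy.symm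
          exact ⟨a • x, h1, q_smul (A := A) (q := qX S) (fun _ _ => qX_eq_qX) a x⟩
        · rintro ⟨x, hx, rfl⟩
          exact ⟨⟨x, rfl⟩, ⟨S.φ x, (qX_eq_qY_source S hx).symm⟩⟩
      rw [this]
      exact hpc.image continuous_qX
    · intro γ hγ
      obtain ⟨a, ha⟩ := exists_loopHom (A := A) (q := qX S) continuous_qX
        (fun _ _ => qX_eq_qX) x₀ rfl isOpenMap_qX hA γ hγ
      exact ⟨Monoid.PushoutI.of (φ := S.edge) true a, by rw [psi_true]; exact ha⟩
    · intro γ hγ
      obtain ⟨a, ha⟩ := exists_loopHom (A := A) (q := qY S) continuous_qY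
        (fun _ _ => qY_eq_qY) (S.φ x₀) (qX_eq_qY_source S hx₀).symm isOpenMap_qY hB γ hγ
      exact ⟨Monoid.PushoutI.of (φ := S.edge) false a, by rw [psi_false]; exact ha⟩
  intro g
  have : unop g ∈ K := hK ▸ Subgroup.mem_top _
  exact this

/-- The homomorphism from `π₁(M)` given by the covering. -/
noncomputable def theta : FundamentalGroup (Q S) (qX S x₀) →* S.Amᵐᵒᵖ :=
  (isQuotientCoveringMap_proj S.amLab hA hB).fundamentalGroupToMulOpposite
    ⟨inX S.amLab 1 x₀, rfl⟩

theorem theta_homA (a : A) : theta S hA hB (x₀ := x₀) (unop (homA S x₀ a)) =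
    op (Monoid.PushoutI.of (φ := S.edge) true a) := by
  unfold theta
  rw [IsQuotientCoveringMap.fundamentalGroupToMulOpposite_apply_eq_Iff]
  set pp : Path x₀ (a • x₀) := PathConnectedSpace.somePath _ _ with hpp
  have h1 : inX S.amLab 1 (a • x₀) = (Monoid.PushoutI.of (φ := S.edge) true a) • inX S.amLab 1 x₀ := by
    rw [smul_inX]
    exact (inX_eq_inX _).2 ⟨a⁻¹, by rw [inv_smul_smul], by simp [amLab]⟩
  let cov := (isQuotientCoveringMap_proj S.amLab hA hB).isCoveringMap
  let Γ : Path (inX S.amLab 1 x₀)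
      ((Monoid.PushoutI.of (φ := S.edge) true a) • inX S.amLab 1 x₀) :=
    (pp.map (continuous_inX S.amLab 1)).cast rfl h1.symm
  have h2 := cov.monodromy_eq_of_map_eq (γ := unop (homA S x₀ a))
    (ex := ⟨inX S.amLab 1 x₀, rfl⟩)
    (ey := ⟨(Monoid.PushoutI.of (φ := S.edge) true a) • inX S.amLab 1 x₀, rfl⟩)
    (Path.Homotopic.Quotient.mk Γ) (by
      unfold homA
      rw [loopHom_apply _ _ _ _ _ pp]
      rfl)
  exact congrArg Subtype.val h2.symm

theorem theta_homB (a : A) : theta S hA hB (x₀ := x₀) (unop (homB S hx₀ a)) =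
    op (Monoid.PushoutI.of (φ := S.edge) false a) := by
  unfold theta
  rw [IsQuotientCoveringMap.fundamentalGroupToMulOpposite_apply_eq_Iff]
  set pp : Path (S.φ x₀) (a • S.φ x₀) := PathConnectedSpace.somePath _ _ with hpp
  have h0 : inX S.amLab 1 x₀ = inY S.amLab 1 (S.φ x₀) :=
    (inX_eq_inY _).2 ⟨1, 1, by simpa using hx₀, by simp, by simp⟩
  have h1 : inY S.amLab 1 (a • S.φ x₀) =
      (Monoid.PushoutI.of (φ := S.edge) false a) • inX S.amLab 1 x₀ := by
    rw [h0, smul_inY]
    exact (inY_eq_inY _).2 ⟨a⁻¹, by rw [inv_smul_smul], by simp [amLab]⟩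
  let cov := (isQuotientCoveringMap_proj S.amLab hA hB).isCoveringMap
  let Γ : Path (inX S.amLab 1 x₀)
      ((Monoid.PushoutI.of (φ := S.edge) false a) • inX S.amLab 1 x₀) :=
    (pp.map (continuous_inY S.amLab 1)).cast h0 h1.symm
  have h2 := cov.monodromy_eq_of_map_eq (γ := unop (homB S hx₀ a))
    (ex := ⟨inX S.amLab 1 x₀, rfl⟩)
    (ey := ⟨(Monoid.PushoutI.of (φ := S.edge) false a) • inX S.amLab 1 x₀, rfl⟩)
    (Path.Homotopic.Quotient.mk Γ) (by
      unfold homB
      rw [loopHom_apply _ _ _ _ _ pp]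
      rfl)
  exact congrArg Subtype.val h2.symm

/-- **Theorem.** `π₁(M)` is isomorphic to the amalgamated product. -/
theorem exists_mulEquiv (hA : ∀ x : X, ∃ U ∈ 𝓝 x, ∀ a : A, ((a • ·) '' U ∩ U).Nonempty → a = 1)
    (hB : ∀ y : Y, ∃ U ∈ 𝓝 y, ∀ b : A, ((b • ·) '' U ∩ U).Nonempty → b = 1)
    (hpc : IsPathConnected S.φ.source) {x₀ : X} (hx₀ : x₀ ∈ S.φ.source) :
    Nonempty (S.Am ≃* (FundamentalGroup (Q S) (qX S x₀))ᵐᵒᵖ) := by
  refine ⟨MulEquiv.ofBijective (psi S hpc hx₀) ⟨?_, psi_surjective S hA hB hpc hx₀⟩⟩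
  let Θ : (FundamentalGroup (Q S) (qX S x₀))ᵐᵒᵖ →* S.Am :=
    { toFun := fun x => unop (theta S hA hB (unop x))
      map_one' := by
        change unop (theta S hA hB (unop 1)) = 1
        rw [MulOpposite.unop_one, map_one, MulOpposite.unop_one]
      map_mul' := fun x y => by
        change unop (theta S hA hB (unop (x * y))) = _
        rw [MulOpposite.unop_mul, map_mul, MulOpposite.unop_mul] }
  have hcomp : Θ.comp (psi S hpc hx₀) = MonoidHom.id _ := by
    refine Monoid.PushoutI.hom_ext_nonempty ?_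
    intro b
    ext a
    cases b
    · change unop (theta S hA hB (unop (psi S hpc hx₀ (Monoid.PushoutI.of false a)))) = _
      rw [psi_false, theta_homB]
      rfl
    · change unop (theta S hA hB (unop (psi S hpc hx₀ (Monoid.PushoutI.of true a)))) = _
      rw [psi_true, theta_homA]
      rfl
  exact Function.LeftInverse.injective (g := Θ) fun x => DFunLike.congr_fun hcomp x

end GlueSys

end Pool.Agent.Work.MP_f0c219_gt
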