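import Pool.Agent.Work.MP_f0c219_gt.GlueMetric
import Pool.Agent.Work.MP_f0c219_gt.MetricDefs
import Pool.Agent.Work.MP_f0c219_gt_h82.Cat0Ext

/-!
# The metric glued along the wall is locally CAT(0)
-/

open Set Topology Filter
open scoped ComplexConjugate

namespace Pool.Agent.Work.MP_f0c219_gt.Model

open Borromean

theorem fl_nonneg (p : ℂ × ℝ) : 0 ≤ fl p := Real.sqrt_nonneg _

theorem fl_smul (c : ℝ) (p : ℂ × ℝ) : fl (c • p) = |c| * fl p := by
  unfold fl
  rw [Prod.smul_fst, Prod.smul_snd, norm_smul, Real.norm_eq_abs, smul_eq_mul]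
  have h : (|c| * ‖p.1‖) ^ 2 + (c * p.2) ^ 2 / 32 = |c| ^ 2 * (‖p.1‖ ^ 2 + p.2 ^ 2 / 32) := by
    rw [mul_pow, mul_pow, sq_abs]; ring
  rw [h, Real.sqrt_mul (sq_nonneg _), Real.sqrt_sq (abs_nonneg c)]

theorem fl_neg (p : ℂ × ℝ) : fl (-p) = fl p := by
  have := fl_smul (-1) p
  rw [neg_one_smul, abs_neg, abs_one, one_mul] at this
  exact this

theorem fl_zero : fl 0 = 0 := by simp [fl]

theorem continuous_fl : Continuous fl := by
  unfold fl
  fun_prop

theorem flipL_flipL (p : ℂ × ℝ) : flipL 0 (flipL 0 p) = p := by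
  rw [flipL_apply, flipL_apply]
  ext1
  · simp only [cx_cz, Int.cast_zero, zero_mul, sub_zero, cz_cx_cy]
  · simp only [cy_cz, Int.cast_zero, zero_mul, sub_zero]

theorem flipL_ev (v : Z3) : flipL 0 (ev v) = ev (flipE 0 v) := (flip 0).comm v

/-- A metric on the piece near the wall. -/
structure Wall {P : Type} [MetricSpace P] (ρ : ℝ) (b : ℂ × ℝ → P) : Prop where
  pos : 0 < ρ
  le : ∀ v w : P, dist v w ≤ ρ
  cat : ∀ (v : P) (r : ℝ), r ≤ ρ / 2 → IsCAT0 (Metric.closedBall v r)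
  loc : ∀ p p' : ℂ × ℝ, fl (p - p') ≤ ρ → dist (b p) (b p') = fl (p - p')
  lift : ∀ p p' : ℂ × ℝ, dist (b p) (b p') < ρ → ∃ v : Z3,
    fl (p - (p' + ev v)) = dist (b p) (b p')
  per : ∀ (p : ℂ × ℝ) (v : Z3), b (p + ev v) = b p

namespace Wall

variable {P : Type} [MetricSpace P] {ρ : ℝ} {b : ℂ × ℝ → P} (h : Wall ρ b)

include h

theorem dist_flip_le (p p' : ℂ × ℝ) : dist (b (flipL 0 p)) (b (flipL 0 p')) ≤ dist (b p) (b p') := by
  rcases lt_or_ge (dist (b p) (b p')) ρ with h1 | h1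
  · obtain ⟨v, hv⟩ := h.lift p p' h1
    have h2 : fl (flipL 0 p - (flipL 0 p' + ev (flipE 0 v))) = dist (b p) (b p') := by
      rw [← hv, ← flipL_ev, ← map_add, ← map_sub, fl_flip]
    have h3 := h.loc (flipL 0 p) (flipL 0 p' + ev (flipE 0 v)) (by rw [h2]; exact h1.le)
    rw [h.per, h2] at h3
    exact h3.le
  · exact (h.le _ _).trans h1

theorem dist_flip (p p' : ℂ × ℝ) : dist (b (flipL 0 p)) (b (flipL 0 p')) = dist (b p) (b p') := by
  apply le_antisymm (h.dist_flip_le p p')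
  have := h.dist_flip_le (flipL 0 p) (flipL 0 p')
  rwa [flipL_flipL, flipL_flipL] at this

theorem continuous : Continuous b := by
  rw [continuous_iff_continuousAt]
  intro p
  rw [ContinuousAt, tendsto_iff_dist_tendsto_zero]
  have h1 : Tendsto (fun p' => fl (p' - p)) (𝓝 p) (𝓝 0) := by
    have h2 : Continuous (fun p' : ℂ × ℝ => fl (p' - p)) :=
      continuous_fl.comp (continuous_id.sub continuous_const)
    have h3 := h2.tendsto p
    rwa [sub_self, fl_zero] at h3
  refine h1.congr' ?_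
  have h4 := h1.eventually (gt_mem_nhds h.pos)
  filter_upwards [h4] with p' hp'
  exact (h.loc p' p hp'.le).symm

theorem isCompact_range : IsCompact (range b) := by
  set K : Set (ℂ × ℝ) := (fun q : ℝ × ℝ × ℝ => (cz q.1 q.2.1, q.2.2)) ''
    (Icc 0 1 ×ˢ Icc 0 1 ×ˢ Icc 0 1) with hK
  have hcK : IsCompact K := by
    apply (isCompact_Icc.prod (isCompact_Icc.prod isCompact_Icc)).image
    unfold cz
    fun_prop
  have h1 : range b = b '' K := by
    apply subset_antisymm
    · rintro _ ⟨p, rfl⟩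
      set v : Z3 := (-⌊cx p.1⌋, -⌊cy p.1⌋, -⌊p.2⌋) with hv
      refine ⟨p + ev v, ?_, h.per p v⟩
      refine ⟨(Int.fract (cx p.1), Int.fract (cy p.1), Int.fract p.2), ?_, ?_⟩
      · exact ⟨⟨Int.fract_nonneg _, (Int.fract_lt_one _).le⟩,
          ⟨Int.fract_nonneg _, (Int.fract_lt_one _).le⟩,
          ⟨Int.fract_nonneg _, (Int.fract_lt_one _).le⟩⟩
      · rw [ev_eq]
        ext1
        · simp only [Prod.fst_add, hv]
          have e1 : cz (Int.fract (cx p.1)) (Int.fract (cy p.1)) =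
              cz (cx p.1 + ((-⌊cx p.1⌋ : ℤ) : ℝ)) (cy p.1 + ((-⌊cy p.1⌋ : ℤ) : ℝ)) := by
            congr 1
            · rw [Int.fract]; push_cast; ring
            · rw [Int.fract]; push_cast; ring
          rw [e1, cz_add, cz_cx_cy]
        · simp only [Prod.snd_add, hv]
          rw [Int.fract]; push_cast; ring
    · exact image_subset_range b K
  rw [h1]
  exact hcK.image h.continuous

end Wall

/-- The glued space. -/
theorem exists_flip_glue {P : Type} [MetricSpace P] {ρ : ℝ} {b : ℂ × ℝ → P} (h : Wall ρ b) :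
    ∃ (M : Type) (_ : MetricSpace M) (iV iW : P → M), Isometry iV ∧ Isometry iW ∧
      range iV ∪ range iW = univ ∧ (∀ p, iV (b p) = iW (b (flipL 0 p))) ∧
      ∀ x y, ∃ p, dist (iV x) (iW y) = dist x (b p) + dist (b (flipL 0 p)) y := by
  let Z : Type := range b
  have : CompactSpace Z := isCompact_iff_compactSpace.1 h.isCompact_range
  have : Nonempty Z := ⟨⟨b 0, 0, rfl⟩⟩
  let Φ : Z → P := Subtype.val
  have hΦ : Isometry Φ := isometry_subtype_coe
  let s : Z → ℂ × ℝ := fun z => Classical.choose z.2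
  have hs : ∀ z : Z, b (s z) = z.1 := fun z => Classical.choose_spec z.2
  let Ψ : Z → P := fun z => b (flipL 0 (s z))
  have hΨ : Isometry Ψ := by
    refine Isometry.of_dist_eq fun z z' => ?_
    change dist (b (flipL 0 (s z))) (b (flipL 0 (s z'))) = _
    rw [h.dist_flip, hs, hs]
    rfl
  obtain ⟨M, hM, iV, iW, h1, h2, h3, h4, h5⟩ := exists_glue hΦ hΨ
  have hbL : ∀ p p', b p = b p' → b (flipL 0 p) = b (flipL 0 p') := by
    intro p p' hpp
    apply dist_eq_zero.1
    rw [h.dist_flip, hpp, dist_self]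
  refine ⟨M, hM, iV, iW, h1, h2, h3, ?_, ?_⟩
  · intro p
    have := h4 ⟨b p, p, rfl⟩
    change iV (b p) = iW (b (flipL 0 (s ⟨b p, p, rfl⟩))) at this
    rw [this]
    congr 1
    exact hbL _ _ (hs _)
  · intro x y
    obtain ⟨z, hz⟩ := h5 x y
    refine ⟨s z, ?_⟩
    rw [hz]
    change dist x z.1 + _ = _
    rw [← hs z]

theorem image_closedBall {P M : Type} [MetricSpace P] [MetricSpace M] {i : P → M}
    (hi : Isometry i) (x : P) (r : ℝ) :
    i '' Metric.closedBall x r = range i ∩ Metric.closedBall (i x) r := by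
  ext m
  constructor
  · rintro ⟨y, hy, rfl⟩
    exact ⟨⟨y, rfl⟩, by rw [Metric.mem_closedBall, hi.dist_eq]; exact hy⟩
  · rintro ⟨⟨y, rfl⟩, hy⟩
    rw [Metric.mem_closedBall, hi.dist_eq] at hy
    exact ⟨y, hy, rfl⟩

theorem locallyCAT0_of_glue {P M : Type} [MetricSpace P] [MetricSpace M] {ρ : ℝ}
    {b : ℂ × ℝ → P} (h : Wall ρ b) {iV iW : P → M} (h1 : Isometry iV) (h2 : Isometry iW)
    (h3 : range iV ∪ range iW = univ) (h4 : ∀ p, iV (b p) = iW (b (flipL 0 p)))
    (h5 : ∀ x y, ∃ p, dist (iV x) (iW y) = dist x (b p) + dist (b (flipL 0 p)) y) :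
    LocallyCAT0 M := by
  have hρ := h.pos
  have hcatV : ∀ (x : P) (r : ℝ), r ≤ ρ / 2 →
      IsCAT0 ↥(range iV ∩ Metric.closedBall (iV x) r) := by
    intro x r hr
    rw [← image_closedBall h1]
    exact (h.cat x r hr).image iV (fun _ _ _ _ => h1.dist_eq _ _)
  have hcatW : ∀ (x : P) (r : ℝ), r ≤ ρ / 2 →
      IsCAT0 ↥(range iW ∩ Metric.closedBall (iW x) r) := by
    intro x r hr
    rw [← image_closedBall h2]
    exact (h.cat x r hr).image iW (fun _ _ _ _ => h2.dist_eq _ _)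
  have hcap : ∀ m, m ∈ range iV ∩ range iW → ∃ p, m = iV (b p) := by
    rintro _ ⟨⟨x, rfl⟩, y, hy⟩
    obtain ⟨p, hp⟩ := h5 x y
    rw [hy, dist_self] at hp
    have : dist x (b p) = 0 := by
      have := @dist_nonneg _ _ x (b p)
      have := @dist_nonneg _ _ (b (flipL 0 p)) y
      linarith
    exact ⟨p, by rw [dist_eq_zero.1 this]⟩
  have hcap' : ∀ p, iV (b p) ∈ range iV ∩ range iW := fun p => ⟨⟨_, rfl⟩, _, (h4 p).symm⟩
  -- the set `range b` is compact
  have hK := h.isCompact_range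
  have hKne : (range b).Nonempty := ⟨b 0, 0, rfl⟩
  -- points off the wall
  have hoff : ∀ (i : P → M), Isometry i → (∀ (x : P) (r : ℝ), r ≤ ρ / 2 →
      IsCAT0 ↥(range i ∩ Metric.closedBall (i x) r)) → ∀ x, x ∉ range b →
      (∀ m, m ∉ range i → ∃ p, dist x (b p) ≤ dist (i x) m) →
      ∃ U ∈ 𝓝 (i x), IsCAT0 U := by
    intro i hi hcat x hx hd
    obtain ⟨_, ⟨p0, rfl⟩, hp0⟩ := hK.exists_isMinOn hKne
      (f := fun y => dist x y) (continuous_const.dist continuous_id).continuousOn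
    have hc : 0 < dist x (b p0) := by
      rw [dist_pos]
      rintro rfl
      exact hx ⟨p0, rfl⟩
    set r := min (ρ / 2) (dist x (b p0) / 2) with hr
    have hr0 : 0 < r := lt_min (by linarith) (by linarith)
    refine ⟨Metric.closedBall (i x) r, Metric.closedBall_mem_nhds _ hr0, ?_⟩
    have hsub : Metric.closedBall (i x) r = range i ∩ Metric.closedBall (i x) r := by
      refine (inter_eq_right.2 ?_).symm
      intro m hm
      by_contra hmi
      obtain ⟨p, hp⟩ := hd m hmi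
      have h6 : dist x (b p0) ≤ dist x (b p) := hp0 ⟨p, rfl⟩
      rw [Metric.mem_closedBall, dist_comm] at hm
      have h7 : r ≤ dist x (b p0) / 2 := min_le_right _ _
      linarith
    rw [hsub]
    exact hcat x r (min_le_left _ _)
  -- points on the wall
  have hon : ∀ p, ∃ U ∈ 𝓝 (iV (b p)), IsCAT0 U := by
    intro p
    refine ⟨Metric.closedBall (iV (b p)) (ρ / 12), Metric.closedBall_mem_nhds _ (by linarith), ?_⟩
    refine isCAT0_closedBall_of_glued h3 (hcap' p).1 (hcap' p).2 (by linarith) ?_ ?_ ?_ ?_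
    · exact hcatV _ _ (by linarith)
    · rw [h4]
      exact hcatW _ _ (by linarith)
    · rintro x ⟨hx, hx'⟩ y ⟨hy, hy'⟩
      obtain ⟨p1, rfl⟩ := hcap x hx
      obtain ⟨p2, rfl⟩ := hcap y hy
      have hlt : dist (b p1) (b p2) < ρ := by
        rw [← h1.dist_eq]
        rw [Metric.mem_closedBall] at hx' hy'
        have := dist_triangle_right (iV (b p1)) (iV (b p2)) (iV (b p))
        linarith
      obtain ⟨v, hv⟩ := h.lift p1 p2 hlt
      set p3 := p2 + ev v with hp3
      have hb3 : b p3 = b p2 := h.per p2 v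
      refine ⟨fun t => iV (b (p1 + t • (p3 - p1))), ⟨?_, ?_, ?_⟩, fun t _ => hcap' _⟩
      · simp
      · simp [hb3]
      · intro s hs t ht
        rw [h1.dist_eq, h1.dist_eq, ← hv]
        have h6 : p1 + s • (p3 - p1) - (p1 + t • (p3 - p1)) = (t - s) • (p1 - p3) := by
          simp only [smul_sub, sub_smul]
          abel
        have h7 : fl (p1 + s • (p3 - p1) - (p1 + t • (p3 - p1))) = |s - t| * fl (p1 - p3) := by
          rw [h6, fl_smul, abs_sub_comm]
        rw [h.loc _ _ ?_, h7]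
        rw [h7, hv]
        have h8 : |s - t| ≤ 1 := abs_sub_le_iff.2 ⟨by linarith [hs.2, ht.1], by linarith [hs.1, ht.2]⟩
        have h9 := @dist_nonneg _ _ (b p1) (b p2)
        nlinarith [abs_nonneg (s - t)]
    · rintro _ ⟨x, rfl⟩ _ ⟨y, rfl⟩
      obtain ⟨q, hq⟩ := h5 x y
      refine ⟨iV (b q), hcap' q, ?_⟩
      rw [hq, h1.dist_eq]
      congr 1
      rw [h4, h2.dist_eq]
  intro m
  have hm : m ∈ range iV ∪ range iW := by rw [h3]; trivial
  rcases hm with ⟨x, rfl⟩ | ⟨y, rfl⟩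
  · by_cases hx : x ∈ range b
    · obtain ⟨p, rfl⟩ := hx
      exact hon p
    · refine hoff iV h1 hcatV x hx ?_
      intro m hm
      have hm' : m ∈ range iV ∪ range iW := by rw [h3]; trivial
      rcases hm' with hm' | ⟨y, rfl⟩
      · exact absurd hm' hm
      · obtain ⟨p, hp⟩ := h5 x y
        exact ⟨p, by rw [hp]; linarith [@dist_nonneg _ _ (b (flipL 0 p)) y]⟩
  · by_cases hy : y ∈ range b
    · obtain ⟨p, rfl⟩ := hy
      have := hon (flipL 0 p)
      rw [h4, flipL_flipL] at this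
      exact this
    · refine hoff iW h2 hcatW y hy ?_
      intro m hm
      have hm' : m ∈ range iV ∪ range iW := by rw [h3]; trivial
      rcases hm' with ⟨x, rfl⟩ | hm'
      · obtain ⟨p, hp⟩ := h5 x y
        refine ⟨flipL 0 p, ?_⟩
        rw [dist_comm (iW y), hp, dist_comm y]
        linarith [@dist_nonneg _ _ x (b p)]
      · exact absurd hm' hm

end Pool.Agent.Work.MP_f0c219_gt.Model
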